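import Pool.Agent.Lib.MP_d6ddbd_nt.TZ.Stmt

/-! Basic facts on sparse polynomials, grids and codes of points. -/

set_option autoImplicit false

open Polynomial WeierstrassCurve WeierstrassCurve.Affine
open Pool.Agent.Lib.MP_02f36d_nt
open Pool.Agent.Lib.MP_02f36d_nt.X11 (Wd Pts xc_map)
open scoped Classical

noncomputable section

namespace Pool.Agent.Lib.MP_d6ddbd_nt.TZ

section Ev

variable {R R' σ : Type} [CommRing R] [CommRing R']

theorem ev_nil (e : σ → R) : ev e [] = 0 := rfl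

theorem ev_cons (e : σ → R) (m : ℤ × List σ) (p : Pol σ) :
    ev e (m :: p) = m.1 * (m.2.map e).prod + ev e p := by simp [ev]

theorem ev_append (e : σ → R) (p q : Pol σ) : ev e (p ++ q) = ev e p + ev e q := by simp [ev]

theorem ev_map {F : Type} [FunLike F R R'] [RingHomClass F R R'] (φ : F) (e : σ → R) (p : Pol σ) :
    φ (ev e p) = ev (fun v => φ (e v)) p := by
  induction p with
  | nil => exact map_zero φ
  | cons m p ih =>
    rw [ev_cons, ev_cons, map_add, map_mul, ih, map_intCast, map_list_prod, List.map_map]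
    rfl

theorem ev3_map {F : Type} [FunLike F R R'] [RingHomClass F R R'] (φ : F) (p : Pol ℕ) (x y s : R) :
    φ (ev3 p x y s) = ev3 p (φ x) (φ y) (φ s) := by
  rw [ev3, ev3, ev_map]
  congr 1
  funext i
  rcases i with _ | _ | _ | i <;> simp

/-- The product. -/
def pmul (p q : Pol σ) : Pol σ := p.flatMap fun m => q.map fun n => (m.1 * n.1, m.2 ++ n.2)

theorem ev_pmul (e : σ → R) (p q : Pol σ) : ev e (pmul p q) = ev e p * ev e q := by
  induction p with
  | nil => simp [pmul, ev]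
  | cons m p ih =>
    rw [pmul, List.flatMap_cons, ev_append, ← pmul, ih, ev_cons, add_mul]
    congr 1
    simp only [ev, List.map_map, ← List.sum_map_mul_left]
    congr 1
    refine List.map_congr_left fun n _ => ?_
    simp
    ring

theorem ev_const (e : σ → R) (c : ℤ) : ev e [(c, [])] = c := by simp [ev]

theorem ev_var (e : σ → R) (v : σ) : ev e [(1, [v])] = e v := by simp [ev]

theorem hor_nil (x : R) : hor [] x = 1 := rfl

theorem hor_cons (a : ℤ) (c : List ℤ) (x : R) : hor (a :: c) x = a + x * hor c x := rfl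

theorem hor_map {F : Type} [FunLike F R R'] [RingHomClass F R R'] (φ : F) (c : List ℤ) (x : R) :
    φ (hor c x) = hor c (φ x) := by
  induction c with
  | nil => exact map_one φ
  | cons a c ih => rw [hor_cons, hor_cons, map_add, map_mul, ih, map_intCast]

theorem hor_aeval (c : List ℤ) (x : R) : aeval x (hor c (X : ℤ[X])) = hor c x := by
  rw [hor_map, aeval_X]

theorem hor_monic (c : List ℤ) :
    (hor c (X : ℤ[X])).Monic ∧ (hor c (X : ℤ[X])).natDegree = c.length := by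
  induction c with
  | nil => exact ⟨monic_one, natDegree_one⟩
  | cons a c ih =>
    have h := monic_X.mul ih.1
    have e : (X * hor c (X : ℤ[X])).natDegree = c.length + 1 := by
      rw [monic_X.natDegree_mul ih.1, ih.2, natDegree_X, add_comm]
    rw [hor_cons, ← eq_intCast C a]
    refine ⟨h.add_of_right (degree_C_le.trans_lt (natDegree_pos_iff_degree_pos.1 (by omega))), ?_⟩
    rw [natDegree_C_add, e, List.length_cons]

theorem ex_hor : ∀ (n : ℕ) (q : ℤ[X]), q.natDegree = n → q.Monic → ∃ c, hor c X = q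
  | 0, q, h, m => ⟨[], (m.natDegree_eq_zero.1 h).symm⟩
  | n + 1, q, h, m => by
    have e : q.divX.natDegree = n := by rw [natDegree_divX_eq_natDegree_tsub_one, h]; rfl
    obtain ⟨c, hc⟩ := ex_hor n q.divX e (by
      rw [Monic, leadingCoeff, e, coeff_divX, ← h]
      exact m)
    exact ⟨q.coeff 0 :: c, by rw [hor_cons, hc, ← eq_intCast C, add_comm, X_mul_divX_add]⟩

end Ev

theorem hor_fin (c : List ℤ) : {s : K | hor c s = 0}.Finite :=
  ((hor c (X : ℤ[X])).rootSet_finite K).subset fun s hs =>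
    (hor_monic c).1.mem_rootSet.2 ((hor_aeval c s).trans hs)

theorem hor_root {c : List ℤ} (h : c ≠ []) : ∃ s : K, hor c s = 0 := by
  obtain ⟨s, hs⟩ := IsAlgClosed.exists_aeval_eq_zero_of_injective K (RingHom.injective_int _)
    (hor c (X : ℤ[X])) (natDegree_pos_iff_degree_pos.1 (by
      rw [(hor_monic c).2]
      exact List.length_pos_iff.2 h)).ne'
  exact ⟨s, (hor_aeval c s).symm.trans hs⟩

theorem hor_gal (σ : GK) {c : List ℤ} {s : K} : hor c (σ s) = 0 ↔ hor c s = 0 := by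
  rw [← hor_map, map_eq_zero_iff σ σ.injective]

theorem gr_fin {g : ℤ × List ℤ} (h : g.1 ≠ 0) : {p : K × K | Gr g p.1 p.2}.Finite := by
  have : {x : K | hor g.2 (g.1 * x) = 0}.Finite :=
    (hor_fin g.2).preimage (mul_right_injective₀ (Int.cast_ne_zero.2 h)).injOn
  exact (this.prod this).subset fun p hp => hp

theorem ex_int (X : Set K) (h : X.Finite) : ∃ m : ℤ, m ≠ 0 ∧ ∀ x ∈ X, IsIntegral ℤ (m * x) := by
  induction X, h using Set.Finite.induction_on with
  | empty => exact ⟨1, one_ne_zero, by simp⟩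
  | @insert a X _ _ ih =>
    obtain ⟨m, m0, hm⟩ := ih
    have : IsAlgebraic ℤ a := (IsFractionRing.isAlgebraic_iff ℤ ℚ K).2
      (Algebra.IsAlgebraic.isAlgebraic a)
    obtain ⟨n, n0, hn⟩ := this.exists_integral_multiple
    refine ⟨m * n, mul_ne_zero m0 n0, ?_⟩
    rintro x (rfl | hx)
    · simpa [mul_assoc] using hn.zsmul m
    · simpa [mul_assoc, mul_left_comm] using (hm x hx).zsmul n

theorem ex_gr (X : Set (K × K)) (h : X.Finite) :
    ∃ g : ℤ × List ℤ, g.1 ≠ 0 ∧ ∀ p ∈ X, Gr g p.1 p.2 := by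
  have h' := (h.image Prod.fst).union (h.image Prod.snd)
  obtain ⟨m, m0, hm⟩ := ex_int _ h'
  obtain ⟨c, hc⟩ := ex_hor _ (∏ x ∈ h'.toFinset, minpoly ℤ ((m : K) * x)) rfl
    (monic_prod_of_monic _ _ fun x hx => minpoly.monic (hm x (h'.mem_toFinset.1 hx)))
  have k : ∀ x ∈ h'.toFinset, hor c ((m : K) * x) = 0 := fun x hx => by
    rw [← hor_aeval, hc, map_prod]
    exact Finset.prod_eq_zero hx (minpoly.aeval _ _)
  exact ⟨(m, c), m0, fun p hp => ⟨k _ (h'.mem_toFinset.2 (Or.inl ⟨p, hp, rfl⟩)),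
    k _ (h'.mem_toFinset.2 (Or.inr ⟨p, hp, rfl⟩))⟩⟩

theorem gr_gal (σ : GK) {g : ℤ × List ℤ} {x y : K} : Gr g (σ x) (σ y) ↔ Gr g x y := by
  simp only [Gr, ← hor_gal σ (s := g.1 * x), ← hor_gal σ (s := g.1 * y), map_mul, map_intCast]

theorem zer_map {F F' : Type} [Field F] [Field F'] (φ : F →+* F') {L : List (List ℤ)} {x y : F} :
    (φ x, φ y) ∈ Zer F' L ↔ (x, y) ∈ Zer F L := by
  simp only [Zer, Set.mem_ofPred_eq]
  rw [← map_eq_zero_iff φ φ.injective]
  simp only [map_sum, map_mul, map_pow, map_intCast]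

theorem gd_gal (σ : GK) {L : List (List ℤ)} {g : ℤ × List ℤ} {x y : K} :
    Gd L g (σ x) (σ y) ↔ Gd L g x y := by
  rw [Gd, Gd, gr_gal]
  exact and_congr_left' (zer_map (σ : K →+* K))

theorem mp_gal (σ : GK) {F : Tri} {s x y u v : K} :
    Mp F (σ s) (σ x) (σ y) (σ u) (σ v) ↔ Mp F s x y u v := by
  simp only [Mp, ← ev3_map, ← map_mul, σ.injective.eq_iff]

theorem bp_gal (σ : GK) {B : ℤ × Tri} {s z u v : K} :
    Bp B (σ s) (σ z) (σ u) (σ v) ↔ Bp B s z u v := by
  have e : ∀ p : Pol ℕ, ev3 p 0 0 (σ s) = σ (ev3 p 0 0 s) := fun p => by rw [ev3_map, map_zero]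
  have e' : ∀ x, (B.1 : K) * σ x = σ (B.1 * x) := fun x => by rw [map_mul, map_intCast]
  simp only [Bp, e, e', σ.injective.eq_iff]

theorem onE_gal (σ : GK) {d : ℤ} {u v : K} : OnE d (σ u) (σ v) ↔ OnE d u v := by
  rw [OnE, OnE, ← σ.injective.eq_iff (a := v ^ 2)]
  simp [map_ofNat]

theorem rt_iff {x : K} : Rt x ↔ ∀ σ : GK, σ x = x :=
  InfiniteGalois.mem_range_algebraMap_iff_fixed (k := ℚ) x

theorem rq_rt {Q : ℤ × ℤ × ℤ} (h : Q.2.2 ≠ 0) {x y : K} (e : Rq Q x y) : Rt x ∧ Rt y := by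
  have h' : (Q.2.2 : K) ≠ 0 := Int.cast_ne_zero.2 h
  exact ⟨⟨Q.1 / Q.2.2, by push_cast; rw [← e.1]; field_simp⟩,
    ⟨Q.2.1 / Q.2.2, by push_cast; rw [← e.2]; field_simp⟩⟩

theorem rq_inj {Q : ℤ × ℤ × ℤ} (h : Q.2.2 ≠ 0) {x y x' y' : K} (e : Rq Q x y) (e' : Rq Q x' y') :
    x = x' ∧ y = y' :=
  have h' : (Q.2.2 : K) ≠ 0 := Int.cast_ne_zero.2 h
  ⟨mul_left_cancel₀ h' (e.1.trans e'.1.symm), mul_left_cancel₀ h' (e.2.trans e'.2.symm)⟩

theorem rq_ex {Q : ℤ × ℤ × ℤ} (h : Q.2.2 ≠ 0) : ∃ x y, Rq Q x y :=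
  have h' : (Q.2.2 : K) ≠ 0 := Int.cast_ne_zero.2 h
  ⟨Q.1 / Q.2.2, Q.2.1 / Q.2.2, mul_div_cancel₀ _ h', mul_div_cancel₀ _ h'⟩

theorem ex_rq {x y : K} (hx : Rt x) (hy : Rt y) : ∃ Q : ℤ × ℤ × ℤ, Q.2.2 ≠ 0 ∧ Rq Q x y := by
  obtain ⟨a, rfl⟩ := hx
  obtain ⟨b, rfl⟩ := hy
  refine ⟨(a.num * b.den, b.num * a.den, a.den * b.den), by simp, ?_, ?_⟩
  · have : ((a.den * b.den : ℤ) : ℚ) * a = (a.num * b.den : ℤ) := by
      push_cast
      linear_combination (b.den : ℚ) * Rat.mul_den_eq_num a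
    exact_mod_cast congrArg (fun q : ℚ => (q : K)) this
  · have : ((a.den * b.den : ℤ) : ℚ) * b = (b.num * a.den : ℤ) := by
      push_cast
      linear_combination (a.den : ℚ) * Rat.mul_den_eq_num b
    exact_mod_cast congrArg (fun q : ℚ => (q : K)) this

/-- Elements of a simple extension are polynomials in the generator. -/
theorem ex_pol (s z : K) (h : ∀ σ : GK, σ s = s → σ z = z) :
    ∃ (n : ℤ) (p : Pol ℕ), n ≠ 0 ∧ ∀ x y, n * z = ev3 p x y s := by
  have hz : z ∈ IntermediateField.adjoin ℚ {s} := by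
    rw [← InfiniteGalois.fixedField_fixingSubgroup (IntermediateField.adjoin ℚ {s})]
    exact fun σ => h σ (σ.2 ⟨s, IntermediateField.mem_adjoin_simple_self ℚ s⟩)
  rw [← IntermediateField.mem_toSubalgebra, IntermediateField.adjoin_simple_toSubalgebra_of_isAlgebraic
    (Algebra.IsAlgebraic.isAlgebraic s)] at hz
  clear h
  induction hz using Algebra.adjoin_induction with
  | mem x hx =>
    obtain rfl : x = s := hx
    exact ⟨1, [(1, [2])], one_ne_zero, fun a b => by simp [ev3, ev]⟩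
  | algebraMap q =>
    refine ⟨q.den, [(q.num, [])], by simp, fun a b => ?_⟩
    rw [ev3, ev_const, mul_comm, eq_ratCast]
    exact_mod_cast congrArg (fun q : ℚ => (q : K)) (Rat.mul_den_eq_num q)
  | add a b _ _ ha hb =>
    obtain ⟨n, p, n0, hp⟩ := ha
    obtain ⟨m, q, m0, hq⟩ := hb
    refine ⟨n * m, pmul [(m, [])] p ++ pmul [(n, [])] q, mul_ne_zero n0 m0, fun x y => ?_⟩
    have a := hp x y
    have b := hq x y
    simp only [ev3, ev_append, ev_pmul, ev_const] at a b ⊢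
    push_cast
    linear_combination m * a + n * b
  | mul a b _ _ ha hb =>
    obtain ⟨n, p, n0, hp⟩ := ha
    obtain ⟨m, q, m0, hq⟩ := hb
    refine ⟨n * m, pmul p q, mul_ne_zero n0 m0, fun x y => ?_⟩
    have a := hp x y
    have b := hq x y
    simp only [ev3, ev_pmul] at a b ⊢
    rw [← a, ← b]
    push_cast
    ring

variable {d : ℤ}

theorem disc (hd : d ≠ 0) : ((Wd d).toAffine.baseChange K).Δ ≠ 0 := by
  have : ((Wd d).toAffine.baseChange K).Δ = -(2 ^ 12 * 11 ^ 5 * (d : K) ^ 6) := by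
    simp [Wd, WeierstrassCurve.baseChange, Δ, b₂, b₄, b₆, b₈]
    ring
  rw [this, neg_ne_zero]
  exact mul_ne_zero (by norm_num) (pow_ne_zero _ (Int.cast_ne_zero.2 hd))

theorem onE_iff {u v : K} : OnE d u v ↔ ((Wd d).toAffine.baseChange K).toAffine.Equation u v := by
  rw [equation_iff, OnE]
  simp [Wd, WeierstrassCurve.baseChange]
  constructor <;> intro h <;> linear_combination h

theorem onE_pt {P : EK d} (h : P ≠ 0) : OnE d (xc P) (yc P) := onE_iff.2 (nonsing h).1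

theorem ex_pt (hd : d ≠ 0) {u v : K} (h : OnE d u v) : ∃ P : EK d, P ≠ 0 ∧ xc P = u ∧ yc P = v :=
  ⟨.some u v (((Wd d).toAffine.baseChange K).toAffine.equation_iff_nonsingular_of_Δ_ne_zero
    (disc hd) |>.1 (onE_iff.1 h)), Point.some_ne_zero _, rfl, rfl⟩

theorem cod_zero : cod (0 : EK d) = (0, 0, 0) := by
  rw [cod, if_pos rfl]
  rfl

theorem cod_ne {P : EK d} (h : P ≠ 0) : cod P = (1, xc P, yc P) := by rw [cod, if_neg h]

theorem cod_one {P : EK d} {u v : K} : cod P = (1, u, v) ↔ P ≠ 0 ∧ xc P = u ∧ yc P = v := by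
  by_cases h : P = 0
  · simp [h, cod_zero]
  · simp [h, cod_ne h]

theorem cod_nil {P : EK d} {u v : K} : cod P = (0, u, v) ↔ P = 0 ∧ u = 0 ∧ v = 0 := by
  by_cases h : P = 0
  · simp [h, cod_zero, eq_comm]
  · simp [h, cod_ne h]

theorem cod_inj : Function.Injective (cod : EK d → K × K × K) := fun P Q e => by
  by_cases h : Q = 0
  · rw [h, cod_zero] at e
    rw [h, (cod_nil.1 e).1]
  · rw [cod_ne h] at e
    obtain ⟨a, b, c⟩ := cod_one.1 e
    exact pt_ext a h b c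

theorem val_iff (hd : d ≠ 0) {z u v : K} : Val d z u v ↔ ∃ P : EK d, cod P = (z, u, v) := by
  constructor
  · rintro (⟨rfl, rfl, rfl⟩ | ⟨rfl, h⟩)
    · exact ⟨0, cod_zero⟩
    · exact (ex_pt hd h).imp fun P => cod_one.2
  · rintro ⟨P, h⟩
    by_cases k : P = 0
    · rw [k, cod_zero] at h
      cases h
      exact Or.inl ⟨rfl, rfl, rfl⟩
    · rw [cod_ne k] at h
      cases h
      exact Or.inr ⟨rfl, onE_pt k⟩

theorem xc_gal (σ : GK) (P : EK d) : xc (gal σ P) = σ (xc P) := (xc_map _ P).1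

theorem yc_gal (σ : GK) (P : EK d) : yc (gal σ P) = σ (yc P) := (xc_map _ P).2

theorem gal_zero (σ : GK) {P : EK d} : gal σ P = 0 ↔ P = 0 :=
  map_eq_zero_iff _ (Point.map_injective _)

theorem cod_gal (σ : GK) {P : EK d} {z u v : K} (h : cod P = (z, u, v)) :
    cod (gal σ P) = (σ z, σ u, σ v) := by
  simp only [cod, Prod.mk.injEq] at h
  obtain ⟨rfl, rfl, rfl⟩ := h
  simp only [cod, gal_zero, xc_gal, yc_gal]
  split_ifs <;> simp

theorem gal_gal (σ τ : GK) (P : EK d) : gal σ (gal τ P) = gal (σ * τ) P :=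
  cod_inj ((cod_gal σ (cod_gal τ rfl)).trans (cod_gal (σ * τ) rfl).symm)

theorem gal_one (P : EK d) : gal 1 P = P := cod_inj (cod_gal 1 rfl)

theorem mem_fix {P : EK d} : P ∈ Fix d ↔ Rt (xc P) ∧ Rt (yc P) := by
  rw [rt_iff, rt_iff]
  refine ⟨fun h => ⟨fun σ => by rw [← xc_gal, h σ], fun σ => by rw [← yc_gal, h σ]⟩, fun h σ => ?_⟩
  by_cases k : P = 0
  · rw [k, map_zero]
  · exact pt_ext (mt (gal_zero σ).1 k) k (by rw [xc_gal, h.1]) (by rw [yc_gal, h.2])

theorem mat_iff (hd : d ≠ 0) {N : ℕ} {P Q : EK d} {c : K × K × K} :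
    MaT d N (cod P) (cod Q) c ↔ cod (N • P + Q) = c :=
  ⟨fun ⟨_, _, _, a, b, e⟩ => by rwa [cod_inj a, cod_inj b] at e, fun e => ⟨hd, P, Q, rfl, rfl, e⟩⟩

theorem inf_pt (hd : d ≠ 0) : Infinite (EK d) := infinite_pt (sep_of_c4 (Or.inr (disc hd)))

theorem fib_fin (hd : d ≠ 0) {N : ℕ} (hN : N ≠ 0) (Q R : EK d) :
    {P : EK d | N • P + Q = R}.Finite := by
  have := ((isAlg_id (S := ⊤)).zsmul (sep_of_c4 (Or.inr (disc hd))) (disc hd)
    (Int.natCast_ne_zero.2 hN)).tendsto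
  refine (Filter.eventually_cofinite.1 (this.eventually
    (Filter.eventually_cofinite_ne (R - Q)))).subset fun P hP => ?_
  simpa [eq_sub_iff_add_eq] using hP

theorem gr_pt {g : ℤ × List ℤ} (h : g.1 ≠ 0) : {P : EK d | P = 0 ∨ Gr g (xc P) (yc P)}.Finite := by
  refine (((gr_fin h).image fun p => ((1 : K), p)).preimage cod_inj.injOn |>.insert 0).subset ?_
  intro P hP
  by_cases k : P = 0
  · exact Or.inl k
  · exact Or.inr ⟨(xc P, yc P), hP.resolve_left k, (cod_ne k).symm⟩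

end Pool.Agent.Lib.MP_d6ddbd_nt.TZ
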