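import Pool.Agent.Lib.MP_d6ddbd_nt.TZ.Bas

/-! A torsor has a certificate. -/

set_option autoImplicit false

open WeierstrassCurve WeierstrassCurve.Affine
open Pool.Agent.Lib.MP_02f36d_nt
open Pool.Agent.Lib.MP_02f36d_nt.X11 (Wd Pts)
open scoped Classical IntermediateField

noncomputable section

namespace Pool.Agent.Lib.MP_d6ddbd_nt.TZ

theorem fix_adj {s z : K} (h : z ∈ ℚ⟮s⟯) (σ : GK) (e : σ s = s) : σ z = z :=
  (IntermediateField.adjoin_simple_le_iff (K := IntermediateField.fixedField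
    (MulAction.stabilizer GK s))).2 (fun τ => τ.2) h ⟨σ, e⟩

theorem ex_prim (X : Set K) (h : X.Finite) :
    ∃ s : K, IsIntegral ℤ s ∧ ∀ σ : GK, σ s = s → ∀ c ∈ X, σ c = c := by
  induction X, h using Set.Finite.induction_on with
  | empty => exact ⟨0, isIntegral_zero, by simp⟩
  | @insert a X _ _ ih =>
    obtain ⟨s, -, hs⟩ := ih
    obtain ⟨t, ht⟩ := Field.primitive_element_inf_aux ℚ s a
    obtain ⟨m, m0, hm⟩ := ex_int {t} (Set.finite_singleton t)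
    refine ⟨m * t, hm t rfl, fun σ e => ?_⟩
    rw [map_mul, map_intCast] at e
    have k : ∀ z ∈ ({s, a} : Set K), σ z = z := fun z hz =>
      fix_adj (ht ▸ IntermediateField.subset_adjoin ℚ _ hz) σ
        (mul_left_cancel₀ (Int.cast_ne_zero.2 m0) e)
    rintro c (rfl | hc)
    · exact k _ (by simp)
    · exact hs σ (k _ (by simp)) c hc

theorem ex_orb {s : K} (h : IsIntegral ℤ s) :
    ∃ c : List ℤ, hor c s = 0 ∧ ∀ t : K, hor c t = 0 → ∃ σ : GK, σ s = t := by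
  obtain ⟨c, hc⟩ := ex_hor _ (minpoly ℤ s) rfl (minpoly.monic h)
  refine ⟨c, (hor_aeval c s).symm.trans (hc ▸ minpoly.aeval _ _), fun t ht => ?_⟩
  refine minpoly.exists_algEquiv_of_root' (Algebra.IsAlgebraic.isAlgebraic s) ?_
  rw [minpoly.isIntegrallyClosed_eq_field_fractions' ℚ h, Polynomial.aeval_map_algebraMap, ← hc]
  exact (hor_aeval c t).trans ht

/-- Functions with a multiple that is a sparse polynomial. -/
def Rp (s : K) : Subsemiring (K × K → K) where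
  carrier := {f | ∃ (n : ℤ) (p : Pol ℕ), n ≠ 0 ∧ ∀ q : K × K, n * f q = ev3 p q.1 q.2 s}
  zero_mem' := ⟨1, [], one_ne_zero, fun _ => mul_zero _⟩
  one_mem' := ⟨1, [(1, [])], one_ne_zero, fun _ => by simp [ev3, ev]⟩
  add_mem' := by
    rintro a b ⟨n, p, n0, hp⟩ ⟨m, q, m0, hq⟩
    refine ⟨n * m, pmul [(m, [])] p ++ pmul [(n, [])] q, mul_ne_zero n0 m0, fun x => ?_⟩
    have a := hp x
    have b := hq x
    simp only [ev3, ev_append, ev_pmul, ev_const, Pi.add_apply] at a b ⊢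
    push_cast
    linear_combination m * a + n * b
  mul_mem' := by
    rintro a b ⟨n, p, n0, hp⟩ ⟨m, q, m0, hq⟩
    refine ⟨n * m, pmul p q, mul_ne_zero n0 m0, fun x => ?_⟩
    have a := hp x
    have b := hq x
    simp only [ev3, ev_pmul, Pi.mul_apply] at a b ⊢
    rw [← a, ← b]
    push_cast
    ring

theorem rp_eval (s : K) (U : MvPolynomial (Fin 2) K)
    (h : ∀ σ : GK, σ s = s → ∀ c ∈ U.coeffs, σ c = c) :
    (fun q : K × K => MvPolynomial.eval ![q.1, q.2] U) ∈ Rp s := by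
  have e : (fun q : K × K => MvPolynomial.eval ![q.1, q.2] U) = ∑ m ∈ U.support,
      (fun _ => U.coeff m) * ((fun q => q.1) ^ m 0 * (fun q => q.2) ^ m 1) := by
    funext q
    simp [MvPolynomial.eval_eq']
  rw [e]
  refine sum_mem fun m hm => mul_mem ?_ (mul_mem (pow_mem ?_ _) (pow_mem ?_ _))
  · obtain ⟨n, p, n0, hp⟩ := ex_pol s (U.coeff m) fun σ k =>
      h σ k _ (MvPolynomial.coeff_mem_coeffs m (MvPolynomial.mem_support_iff.1 hm))
    exact ⟨n, p, n0, fun q => hp _ _⟩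
  · exact ⟨1, [(1, [0])], one_ne_zero, fun _ => by simp [ev3, ev]⟩
  · exact ⟨1, [(1, [1])], one_ne_zero, fun _ => by simp [ev3, ev]⟩

theorem rat_tri {φ : K × K → K × K} {S : Set (K × K)} (h : RatOn φ S) :
    ∃ X : Set K, X.Finite ∧ ∀ s : K, (∀ σ : GK, σ s = s → ∀ c ∈ X, σ c = c) → ∃ F : Tri,
      ∀ p ∈ S, ev3 F.2.2 p.1 p.2 s ≠ 0 ∧ ∀ u v, Mp F s p.1 p.2 u v ↔ φ p = (u, v) := by
  obtain ⟨U, V, T, h⟩ := h
  refine ⟨↑(U.coeffs ∪ V.coeffs ∪ T.coeffs), Finset.finite_toSet _, fun s hs => ?_⟩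
  obtain ⟨a, U', a0, ha⟩ := rp_eval s U fun σ k c hc => hs σ k c (by simp [hc])
  obtain ⟨b, V', b0, hb⟩ := rp_eval s V fun σ k c hc => hs σ k c (by simp [hc])
  obtain ⟨c, T', c0, hc⟩ := rp_eval s T fun σ k c hc => hs σ k c (by simp [hc])
  refine ⟨(pmul [(b * c, [])] U', pmul [(a * c, [])] V', pmul [(a * b, [])] T'), fun p hp => ?_⟩
  have e : ∀ (n : ℤ) (q : Pol ℕ), ev3 (pmul [(n, [])] q) p.1 p.2 s = n * ev3 q p.1 p.2 s :=
    fun n q => by rw [ev3, ev_pmul, ev_const, ev3]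
  have a1 : (a : K) ≠ 0 := Int.cast_ne_zero.2 a0
  have b1 : (b : K) ≠ 0 := Int.cast_ne_zero.2 b0
  have c1 : (c : K) ≠ 0 := Int.cast_ne_zero.2 c0
  obtain ⟨t, k⟩ := h p hp
  simp only [Mp, e, ← ha p, ← hb p, ← hc p, k, Prod.mk.injEq, div_eq_iff t, Int.cast_mul]
  refine ⟨by positivity, fun u v => and_congr ⟨fun z => ?_, fun z => ?_⟩ ⟨fun z => ?_, fun z => ?_⟩⟩
  · exact mul_left_cancel₀ (mul_ne_zero (mul_ne_zero a1 b1) c1) (by linear_combination -z)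
  · rw [z]
    ring
  · exact mul_left_cancel₀ (mul_ne_zero (mul_ne_zero a1 b1) c1) (by linear_combination -z)
  · rw [z]
    ring

theorem cmA : sCmA := by
  rintro d L hd ⟨S, φ, φ', ψ, hS, hf, hψ, r, r', hi, hg⟩
  obtain ⟨X, hX, r⟩ := rat_tri r
  obtain ⟨X', hX', r'⟩ := rat_tri r'
  obtain ⟨s₀, si, hs⟩ := ex_prim _ (hX.union hX')
  obtain ⟨F, hF⟩ := r s₀ fun σ k c hc => hs σ k c (Or.inl hc)
  obtain ⟨F', hF'⟩ := r' s₀ fun σ k c hc => hs σ k c (Or.inr hc)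
  obtain ⟨h, h0, ho⟩ := ex_orb si
  obtain ⟨g, g0, hgr⟩ := ex_gr _ hf
  obtain ⟨g', g1, hgr'⟩ := ex_gr _ ((hψ.image fun P => (xc P, yc P)).union ((gr_fin g0).image φ))
  have gS : ∀ {x y}, Gd L g x y → (x, y) ∈ S := fun k => by_contra fun z => k.2 (hgr _ ⟨k.1, z⟩)
  have cd : ∀ p ∈ S, ∀ u v, φ p = (u, v) → cod (ψ p) = (1, u, v) := fun p hp u v e => by
    obtain ⟨k, z⟩ := (hi p hp).2
    rw [z]
    exact cod_one.2 ⟨Point.some_ne_zero _, congrArg Prod.fst e, congrArg Prod.snd e⟩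
  have su : ∀ {u v}, OnE d u v → ¬ Gr g' u v → ∃ p ∈ S, ¬ Gr g p.1 p.2 ∧ φ p = (u, v) := by
    intro u v k z
    obtain ⟨P, -, rfl, rfl⟩ := ex_pt hd k
    obtain ⟨p, hp, rfl⟩ : P ∈ ψ '' S := by_contra fun w => z (hgr' _ (Or.inl ⟨P, w, rfl⟩))
    have e := cod_one.1 (cd p hp _ _ rfl)
    have e' : φ p = (xc (ψ p), yc (ψ p)) := Prod.ext e.2.1.symm e.2.2.symm
    exact ⟨p, hp, fun w => z (hgr' (_, _) (Or.inr ⟨p, w, e'⟩)), e'⟩
  have cn : ∀ s, hor h s = 0 → ∃ a, ∀ x y u v, Gd L g x y → Mp F s x y u v →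
      (1, u, v) = cod (ψ (x, y) - a) := fun s k => by
    obtain ⟨σ, rfl⟩ := ho s k
    obtain ⟨a, ha⟩ := hg σ
    refine ⟨a, σ.surjective.forall₂.2 fun x y => σ.surjective.forall₂.2 fun u v w z => ?_⟩
    have w' := gS ((gd_gal σ).1 w)
    rw [ha (x, y) w' (gS w), add_sub_cancel_right,
      cod_gal σ (cd _ w' u v (((hF _ w').2 u v).1 ((mp_gal σ).1 z))), map_one]
  refine ⟨h, g, g', F, F', ⟨hd, ?_, g0, g1, ?_, ?_, ?_, ?_, ?_, ?_⟩, fun s s' k k' => ?_⟩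
  · rintro rfl
    exact one_ne_zero h0
  · intro s x y k w
    obtain ⟨σ, rfl⟩ := ho s k
    obtain ⟨x, rfl⟩ := σ.surjective x
    obtain ⟨y, rfl⟩ := σ.surjective y
    rw [← ev3_map, map_ne_zero]
    exact (hF _ (gS ((gd_gal σ).1 w))).1
  · intro s x y u v k w z
    obtain ⟨a, ha⟩ := cn s k
    obtain ⟨e, rfl, rfl⟩ := cod_one.1 (ha x y u v w z).symm
    exact onE_pt e
  · intro s x y x' y' u v k w z w' z'
    obtain ⟨a, ha⟩ := cn s k
    have e := sub_left_injective (cod_inj ((ha x y u v w z).symm.trans (ha x' y' u v w' z')))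
    have e' := (cd _ (gS w) _ _ rfl).symm.trans ((congrArg cod e).trans (cd _ (gS w') _ _ rfl))
    have e'' : φ (x, y) = φ (x', y') := congrArg Prod.snd e'
    exact Prod.ext_iff.1 ((hi _ (gS w)).1.symm.trans ((congrArg φ' e'').trans (hi _ (gS w')).1))
  · intro s u v k w z
    obtain ⟨σ, rfl⟩ := ho s k
    obtain ⟨u, rfl⟩ := σ.surjective u
    obtain ⟨v, rfl⟩ := σ.surjective v
    obtain ⟨p, hp, -, e⟩ := su ((onE_gal σ).1 w) (mt (gr_gal σ).2 z)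
    rw [← ev3_map, map_ne_zero]
    exact (hF' _ ⟨p, hp, e⟩).1
  · intro s u v x y k w z m
    obtain ⟨σ, rfl⟩ := ho s k
    obtain ⟨u, rfl⟩ := σ.surjective u
    obtain ⟨v, rfl⟩ := σ.surjective v
    obtain ⟨x, rfl⟩ := σ.surjective x
    obtain ⟨y, rfl⟩ := σ.surjective y
    obtain ⟨p, hp, n, e⟩ := su ((onE_gal σ).1 w) (mt (gr_gal σ).2 z)
    have e' := ((hF' _ ⟨p, hp, e⟩).2 x y).1 ((mp_gal σ).1 m)
    rw [← e, (hi p hp).1] at e'
    subst e'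
    exact ⟨(gd_gal σ).2 ⟨hS hp, n⟩, (mp_gal σ).2 (((hF _ hp).2 u v).2 e)⟩
  · intro s s' x y x' y' u₁ v₁ u₂ v₂ u₃ v₃ u₄ v₄ a b c a' b' c' k k' w w' m₁ m₂ m₃ m₄ z z'
    obtain ⟨A, hA⟩ := cn s k
    obtain ⟨B, hB⟩ := cn s' k'
    rw [hA _ _ _ _ w m₁, hB _ _ _ _ w' m₄, mat_iff hd] at z
    rw [hB _ _ _ _ w m₂, hA _ _ _ _ w' m₃, mat_iff hd] at z'
    have e : (a, b, c) = (a', b', c') := by
      rw [← z, ← z']
      congr 1
      abel
    simpa using e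
  · obtain ⟨σ, rfl⟩ := ho s k
    obtain ⟨τ, rfl⟩ := ho s' k'
    exact ⟨σ.symm.trans τ, by simp⟩

end Pool.Agent.Lib.MP_d6ddbd_nt.TZ
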