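import Pool.Agent.Lib.MP_d6ddbd_nt.TZ.Snd

/-! The covering certificate exists when there is no rational point. -/

set_option autoImplicit false

open WeierstrassCurve WeierstrassCurve.Affine
open Pool.Agent.Lib.MP_02f36d_nt
open Pool.Agent.Lib.MP_02f36d_nt.X11 (Wd Pts)
open scoped Classical

noncomputable section

namespace Pool.Agent.Lib.MP_d6ddbd_nt.TZ

theorem bp_inj {B : ℤ × Tri} (h : B.1 ≠ 0) {s z u v z' u' v' : K} (a : Bp B s z u v)
    (b : Bp B s z' u' v') : (z, u, v) = (z', u', v') :=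
  have h' : (B.1 : K) ≠ 0 := Int.cast_ne_zero.2 h
  Prod.ext (mul_left_cancel₀ h' (a.1.trans b.1.symm)) (Prod.ext
    (mul_left_cancel₀ h' (a.2.1.trans b.2.1.symm)) (mul_left_cancel₀ h' (a.2.2.trans b.2.2.symm)))

theorem ex_bp (s z u v : K) (h : ∀ σ : GK, σ s = s → σ z = z ∧ σ u = u ∧ σ v = v) :
    ∃ B : ℤ × Tri, B.1 ≠ 0 ∧ Bp B s z u v := by
  obtain ⟨a, p, a0, hp⟩ := ex_pol s z fun σ e => (h σ e).1
  obtain ⟨b, q, b0, hq⟩ := ex_pol s u fun σ e => (h σ e).2.1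
  obtain ⟨c, r, c0, hr⟩ := ex_pol s v fun σ e => (h σ e).2.2
  refine ⟨(a * b * c, pmul [(b * c, [])] p, pmul [(a * c, [])] q, pmul [(a * b, [])] r),
    mul_ne_zero (mul_ne_zero a0 b0) c0, ?_⟩
  have e1 := hp 0 0
  have e2 := hq 0 0
  have e3 := hr 0 0
  simp only [Bp, ev3, ev_pmul, ev_const] at e1 e2 e3 ⊢
  rw [← e1, ← e2, ← e3]
  push_cast
  exact ⟨by ring, by ring, by ring⟩

theorem ex_code (d : ℤ) : ∃ r : Fix d → ℤ × ℤ × ℤ, ∀ P, (r P).2.2 ≠ 0 ∧ Rq (r P) (xc P.1) (yc P.1) :=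
  Classical.skolem.1 fun P : Fix d => ex_rq (mem_fix.1 P.2).1 (mem_fix.1 P.2).2

namespace Str

variable {d : ℤ} {L : List (List ℤ)} {h : List ℤ} {g g' : ℤ × List ℤ} {F F' : Tri}
  (S : Str d L h g g' F F')

include S

/-- The trace of the points over all roots. -/
theorem ex_tr : ∃ (N : ℕ) (b : K → EK d), N ≠ 0 ∧
    (∀ (σ : GK) s, hor h s = 0 → gal σ (b s) = b (σ s)) ∧
    ∀ s s' x y, hor h s = 0 → hor h s' = 0 → Gd L g x y →
      N • Psi d F s x y + b s = N • Psi d F s' x y + b s' := by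
  obtain ⟨s₀, hs₀⟩ := hor_root S.h0
  have := inf_pt S.d0
  obtain ⟨R, hR⟩ := (gr_pt (d := d) S.g1).exists_notMem
  obtain ⟨x₀, y₀, p₀, -⟩ := S.psi_sur hs₀ hR
  set Z := (hor_fin h).toFinset with hZ
  have mZ : ∀ s, s ∈ Z ↔ hor h s = 0 := fun s => (hor_fin h).mem_toFinset
  have k : ∀ {s s' x y}, hor h s = 0 → hor h s' = 0 → Gd L g x y →
      Psi d F s' x y - Psi d F s x y = Psi d F s' x₀ y₀ - Psi d F s x₀ y₀ := fun a b c => by
    rw [sub_eq_sub_iff_add_eq_add, S.psi_con b a c p₀, add_comm]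
  refine ⟨Z.card, fun s => ∑ s' ∈ Z, (Psi d F s' x₀ y₀ - Psi d F s x₀ y₀),
    Finset.card_ne_zero.2 ⟨s₀, (mZ _).2 hs₀⟩, fun σ s hs => ?_, fun s s' x y hs hs' p => ?_⟩
  · rw [map_sum]
    refine Finset.sum_equiv σ.toEquiv (fun t => by rw [mZ, mZ]; exact (hor_gal σ).symm)
      fun t ht => ?_
    have ht' := (mZ t).1 ht
    rw [map_sub, S.psi_gal σ ht' p₀, S.psi_gal σ hs p₀,
      k ((hor_gal σ).2 hs) ((hor_gal σ).2 ht') ((gd_gal σ).2 p₀)]
    rfl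
  · have e : ∀ s, hor h s = 0 → Z.card • Psi d F s x y +
        ∑ s' ∈ Z, (Psi d F s' x₀ y₀ - Psi d F s x₀ y₀) = ∑ t ∈ Z, Psi d F t x y := fun s hs => by
      rw [← Finset.sum_const, ← Finset.sum_add_distrib]
      refine Finset.sum_congr rfl fun t ht => ?_
      rw [← k hs ((mZ t).1 ht) p, add_sub_cancel]
    exact (e s hs).trans (e s' hs').symm

end Str

theorem cmB : sCmB := by
  intro d L h g g' F F' S hO hM hF
  have hd := S.d0
  have no : ∀ x y, (x, y) ∉ GR L g := fun x y hp => S.yes hM.1 hp hF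
  obtain ⟨N, b, N0, b1, b2⟩ := S.ex_tr
  obtain ⟨s₀, hs₀⟩ := hor_root S.h0
  obtain ⟨B, B0, hB⟩ := ex_bp s₀ (cod (b s₀)).1 (cod (b s₀)).2.1 (cod (b s₀)).2.2 fun σ e => by
    have a := cod_gal σ (P := b s₀) rfl
    rw [b1 σ s₀ hs₀, e] at a
    exact ⟨(congrArg (·.1) a).symm, (congrArg (·.2.1) a).symm, (congrArg (·.2.2) a).symm⟩
  have hb : ∀ {s z u v}, hor h s = 0 → Bp B s z u v → cod (b s) = (z, u, v) := fun {s z u v} hs e => by
    obtain ⟨σ, rfl⟩ := hO s₀ s hs₀ hs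
    rw [← b1 σ s₀ hs₀]
    exact (cod_gal σ rfl).trans (bp_inj B0 ((bp_gal σ).2 hB) e)
  obtain ⟨r, hr⟩ := ex_code d
  have f1 : Finite {P : Fix d // N • P = 0} :=
    (((fib_fin hd N0 0 0).preimage Subtype.val_injective.injOn).subset fun (P : Fix d)
      (hP : N • P = 0) => (add_zero _).trans (congrArg Subtype.val hP)).to_subtype
  have := Fintype.ofFinite {P : Fix d // N • P = 0}
  set o : {P : Fix d // N • P = 0} := ⟨0, smul_zero _⟩ with ho
  have n1 : Nonempty {P : Fix d // N • P = 0} := ⟨o⟩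
  set H := (nsmulAddMonoidHom (α := Fix d) N).range with hH
  have mk0 : ∀ P : Fix d, (QuotientAddGroup.mk (N • P) : Fix d ⧸ H) = 0 := fun P =>
    (QuotientAddGroup.eq_zero_iff _).2 ⟨P, rfl⟩
  have c2 : Nat.card (Fix d ⧸ H) = N * Nat.card {P : Fix d // N • P = 0} := hM.2 N N0
  have f2 : Finite (Fix d ⧸ H) :=
    Nat.finite_of_card_ne_zero (c2 ▸ mul_ne_zero N0 Nat.card_pos.ne')
  have := Fintype.ofFinite (Fix d ⧸ H)
  have bad := ((hor_fin h).biUnion fun s _ =>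
    (gr_pt (d := d) S.g1).image fun P => N • P + b s).insert 0
  have hρ : ∀ c : Fix d ⧸ H, ∃ P : Fix d, QuotientAddGroup.mk P = c ∧ P.1 ≠ 0 ∧
      ∀ s P', hor h s = 0 → N • P' + b s = P.1 → ¬ (P' = 0 ∨ Gr g' (xc P') (yc P')) := fun c => by
    obtain ⟨P, hP, nP⟩ := (Set.infinite_coe_iff.1 hM.1).exists_notMem_finite
      (bad.biUnion fun t _ => fib_fin hd N0 c.out.1 t)
    have a : N • P + c.out.1 ∉ _ := fun e => nP (Set.mem_biUnion e rfl)
    refine ⟨N • ⟨P, hP⟩ + c.out, ?_, fun e => a (Or.inl e),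
      fun s P' hs e k => a (Or.inr (Set.mem_biUnion hs ⟨P', k, e⟩))⟩
    rw [QuotientAddGroup.mk_add, QuotientAddGroup.out_eq', mk0, zero_add]
  choose ρ ρ1 ρ2 ρ3 using hρ
  have hc : ∀ c {p q}, Rq (r (ρ c)) p q → cod (ρ c).1 = (1, p, q) := fun c p q e =>
    cod_one.2 ⟨ρ2 c, rq_inj (hr _).1 (hr _).2 e⟩
  have hR : ∀ Q ∈ (Finset.univ : Finset (Fix d ⧸ H)).toList.map fun c => r (ρ c),
      ∃ c, r (ρ c) = Q := fun Q hQ => (List.mem_map.1 hQ).imp fun c e => e.2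
  have fin : ∀ Q R : EK d, ((fun P => (xc P, yc P)) '' {P : EK d | N • P + Q = R}).Finite :=
    fun Q R => (fib_fin hd N0 Q R).image _
  refine ⟨N, B, Finset.univ.toList.map fun c => r (ρ c),
    (Finset.univ.erase o).toList.map fun P => r P.1, N0, B0, ?_, fun Q hQ => ?_, fun Q hQ => ?_,
    fun s z u v hs e => (val_iff hd).2 ⟨_, hb hs e⟩, ?_, fun Q hQ u v e => ?_, ?_,
    fun Q hQ => ⟨?_, ?_⟩, ?_, ?_, ?_⟩
  · rw [List.length_map, List.length_map, Finset.length_toList, Finset.length_toList,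
      Finset.card_erase_add_one (Finset.mem_univ o), Finset.card_univ, Finset.card_univ,
      ← Nat.card_eq_fintype_card, ← Nat.card_eq_fintype_card, c2]
  · obtain ⟨c, rfl⟩ := hR Q hQ
    exact (hr _).1
  · obtain ⟨c, -, rfl⟩ := List.mem_map.1 hQ
    exact (hr _).1
  · intro s s' x y u₁ v₁ u₂ v₂ z u v z' u' v' a₁ a₂ a₃ a₄ a₅ a₆ hs hs' p m m' e e' t t'
    rw [← S.cod_psi hs p m, ← hb hs e, mat_iff hd] at t
    rw [← S.cod_psi hs' p m', ← hb hs' e', mat_iff hd, ← b2 s s' x y hs hs' p, t] at t'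
    simpa only [Prod.mk.injEq] using t'
  · obtain ⟨c, rfl⟩ := hR Q hQ
    obtain ⟨a, rfl, rfl⟩ := cod_one.1 (hc c e)
    exact onE_pt a
  · rintro Q hQ s z u v a₁ a₂ a₃ p q hs e e' ⟨-, P, P', t1, t2, t3⟩
    obtain ⟨c, rfl⟩ := hR Q hQ
    rw [cod_inj (t2.trans (hb hs e).symm)] at t3
    have k := not_or.1 (ρ3 c s P hs (cod_inj (t3.trans (hc c e').symm)))
    rw [cod_ne k.1] at t1
    cases t1
    exact ⟨rfl, k.2⟩
  · obtain ⟨c, rfl⟩ := hR Q hQ
    refine ((hor_fin h).biUnion (t := fun s => {p : K × K | Gd L g p.1 p.2 ∧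
      N • Psi d F s p.1 p.2 + b s = (ρ c).1}) fun s hs => ?_).subset ?_
    · refine Set.Finite.of_injOn (f := fun p => Psi d F s p.1 p.2) (fun p hp => hp.2)
        (fun p hp p' hp' e => ?_) (fib_fin hd N0 (b s) (ρ c).1)
      have := S.psi_inj hs hp.1 hp'.1 e
      exact Prod.ext this.1 this.2
    · rintro p ⟨s, z, u, v, a₁, a₂, a₃, a₄, hs, e, e', k, m, t⟩
      rw [← S.cod_psi hs k m, ← hb hs e, mat_iff hd, ← hc c e'] at t
      exact Set.mem_biUnion hs ⟨k, cod_inj t⟩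
  · rintro x y ⟨s, z, u, v, a₁, a₂, a₃, a₄, -, -, -, k, -⟩ a
    exact no x y ⟨a.1, a.2, k⟩
  · intro i hi j hj ij
    rw [List.mem_range] at hi hj
    rw [List.getD_eq_getElem _ _ hi, List.getD_eq_getElem _ _ hj, List.getElem_map,
      List.getElem_map]
    have ne := mt ((Finset.nodup_toList (Finset.univ : Finset (Fix d ⧸ H))).getElem_inj_iff
      (hi := by simpa only [List.length_map] using hi)
      (hj := by simpa only [List.length_map] using hj)).1 ij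
    generalize (Finset.univ : Finset (Fix d ⧸ H)).toList[i]'_ = c at ne ⊢
    generalize (Finset.univ : Finset (Fix d ⧸ H)).toList[j]'_ = c' at ne ⊢
    have k : ∀ x y : K, (∃ z p q p' q' : K, Rq (r (ρ c)) p q ∧ Rq (r (ρ c')) p' q' ∧
        MaT d N (z, x, y) (1, p', q') (1, p, q)) →
        ∃ P : EK d, N • P + (ρ c').1 = (ρ c).1 ∧ (xc P, yc P) = (x, y) := by
      rintro x y ⟨z, p, q, p', q', e, e', -, P, P', t1, t2, t3⟩
      rw [cod_inj (t2.trans (hc c' e').symm)] at t3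
      exact ⟨P, cod_inj (t3.trans (hc c e).symm), congrArg Prod.snd t1⟩
    refine ⟨(fin _ _).subset fun p hp => k p.1 p.2 hp, fun x y e a => ne ?_⟩
    obtain ⟨P, e1, e2⟩ := k x y e
    cases e2
    have e3 : N • (⟨P, mem_fix.2 a⟩ : Fix d) + ρ c' = ρ c := Subtype.ext e1
    rw [← ρ1 c, ← e3, QuotientAddGroup.mk_add, mk0, zero_add, ρ1]
  · refine (fin 0 0).subset ?_
    rintro p ⟨⟨-, P, P', t1, t2, t3⟩, -⟩
    rw [(cod_nil.1 t2).1] at t3
    exact ⟨P, (cod_nil.1 t3).1, congrArg Prod.snd t1⟩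
  · rintro x y ⟨⟨-, P, P', t1, t2, t3⟩, k⟩ a
    rw [(cod_nil.1 t2).1, add_zero] at t3
    obtain ⟨P0, rfl, rfl⟩ := cod_one.1 t1
    let T : {P : Fix d // N • P = 0} := ⟨⟨P, mem_fix.2 a⟩, Subtype.ext (cod_nil.1 t3).1⟩
    exact k (r T.1) (List.mem_map.2 ⟨T, Finset.mem_toList.2 (Finset.mem_erase.2
      ⟨fun e => P0 (congrArg (·.1.1) e), Finset.mem_univ _⟩), rfl⟩) (hr T.1).2

end Pool.Agent.Lib.MP_d6ddbd_nt.TZ
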