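import Mathlib

/-! Plane curves that are torsors of an elliptic curve. -/

set_option autoImplicit false

open MvPolynomial

noncomputable section

namespace Pool.Agent.Lib.MP_d6ddbd_nt.TZ

/-- The zeros in `F × F` of the polynomial with the coefficients `L`. -/
def Zer (F : Type) [Field F] (L : List (List ℤ)) : Set (F × F) :=
  {p | ∑ i ∈ Finset.range L.length, ∑ j ∈ Finset.range (L.getD i []).length,
    (((L.getD i []).getD j 0 : ℤ) : F) * p.1 ^ i * p.2 ^ j = 0}

/-- On `S` the map `φ` is given by quotients of polynomials. -/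
def RatOn {F : Type} [Field F] (φ : F × F → F × F) (S : Set (F × F)) : Prop :=
  ∃ U V T : MvPolynomial (Fin 2) F, ∀ p ∈ S, eval ![p.1, p.2] T ≠ 0 ∧
    φ p = (eval ![p.1, p.2] U / eval ![p.1, p.2] T, eval ![p.1, p.2] V / eval ![p.1, p.2] T)

open Classical in
/-- The curve with the coefficients `L` is birational to `W` over the algebraic closure, by a map
that differs from its Galois conjugates by translations. -/
def Tors (L : List (List ℤ)) (W : WeierstrassCurve ℚ) : Prop :=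
  ∃ (S : Set (AlgebraicClosure ℚ × AlgebraicClosure ℚ))
    (φ φ' : AlgebraicClosure ℚ × AlgebraicClosure ℚ → AlgebraicClosure ℚ × AlgebraicClosure ℚ)
    (ψ : AlgebraicClosure ℚ × AlgebraicClosure ℚ →
      (W.toAffine.baseChange (AlgebraicClosure ℚ)).Point),
    S ⊆ Zer (AlgebraicClosure ℚ) L ∧ (Zer (AlgebraicClosure ℚ) L \ S).Finite ∧
    (ψ '' S)ᶜ.Finite ∧ RatOn φ S ∧ RatOn φ' (φ '' S) ∧
    (∀ p ∈ S, φ' (φ p) = p ∧ ∃ h, ψ p = .some (φ p).1 (φ p).2 h) ∧
    ∀ σ : AlgebraicClosure ℚ ≃ₐ[ℚ] AlgebraicClosure ℚ, ∃ a, ∀ p ∈ S, (σ p.1, σ p.2) ∈ S →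
      ψ (σ p.1, σ p.2) = WeierstrassCurve.Affine.Point.map σ.toAlgHom (ψ p) + a

end Pool.Agent.Lib.MP_d6ddbd_nt.TZ
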