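import Pool.Agent.Lib.MP_d6ddbd_nt.TZ.Tm

/-! Existential and universal conditions. -/

set_option autoImplicit false

open Pool.Agent.Sand.Check

noncomputable section

namespace Pool.Agent.Lib.MP_d6ddbd_nt.TZ

variable {α β σ τ : Type} [Primcodable α] [Primcodable β] [Primcodable σ] [Primcodable τ]

/-- Computable families of algebraic sets. -/
def Sy (P : α → (σ → K) → Prop) : Prop :=
  ∃ S : α → List (Pol σ), PR S ∧ ∀ a e, P a e ↔ ∀ p ∈ S a, ev e p = 0

/-- Their projections. -/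
def Ex (P : α → (σ → K) → Prop) : Prop := ∃ (τ : Type) (_ : Primcodable τ)
  (Q : α → (σ ⊕ τ → K) → Prop), Sy Q ∧ ∀ a e, P a e ↔ ∃ w, Q a (Sum.elim e w)

/-- The complements of the projections. -/
def Al (P : α → (σ → K) → Prop) : Prop := Ex fun a e => ¬ P a e

variable {P Q : α → (σ → K) → Prop} {f g : α → (σ → K) → K}

namespace Sy

theorem eq (hf : Tm f) (hg : Tm g) : Sy fun a e => f a e = g a e :=
  let ⟨p, a, b⟩ := hf.sub hg
  ⟨fun a => [p a], by fun_prop, fun x e => by simp [← b, sub_eq_zero]⟩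

theorem and (hP : Sy P) (hQ : Sy Q) : Sy fun a e => P a e ∧ Q a e :=
  let ⟨S, a, b⟩ := hP
  let ⟨T, c, d⟩ := hQ
  ⟨fun a => S a ++ T a, by fun_prop, fun x e => by simp [b, d, or_imp, forall_and]⟩

theorem or (hP : Sy P) (hQ : Sy Q) : Sy fun a e => P a e ∨ Q a e :=
  let ⟨S, a, b⟩ := hP
  let ⟨T, c, d⟩ := hQ
  ⟨fun a => (S a).flatMap fun p => (T a).map fun q => pmul p q,
    pr_flatMap a (PR.map (by fun_prop) (by fun_prop)), fun x e => by
      simp only [b, d, List.mem_flatMap, List.mem_map, forall_exists_index, and_imp]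
      refine ⟨fun h _ p hp q hq k => by
        rw [← k, ev_pmul, mul_eq_zero]
        exact h.imp (· p hp) (· q hq), fun h => or_iff_not_imp_left.2 fun k q hq => ?_⟩
      push Not at k
      obtain ⟨p, hp, k⟩ := k
      have := h _ p hp q hq rfl
      rw [ev_pmul] at this
      exact (mul_eq_zero.1 this).resolve_left k⟩

theorem all {l : α → List β} {P : α → β → (σ → K) → Prop} (hl : PR l)
    (hP : Sy fun (w : α × β) e => P w.1 w.2 e) : Sy fun a e => ∀ b ∈ l a, P a b e :=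
  let ⟨S, a, b⟩ := hP
  ⟨fun a => (l a).flatMap fun v => S (a, v), pr_flatMap hl a, fun x e => by
    simp only [List.mem_flatMap, forall_exists_index, and_imp]
    exact ⟨fun h p v hv => (b (x, v) e).1 (h v hv) p,
      fun h v hv => (b (x, v) e).2 fun p => h p v hv⟩⟩

theorem subst {P : β → (τ → K) → Prop} {r : α → β} {F : α → τ → (σ → K) → K} (hP : Sy P)
    (hr : PR r) (hF : Tm fun (w : α × τ) e => F w.1 w.2 e) :
    Sy fun a e => P (r a) fun v => F a v e :=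
  let ⟨S, a, b⟩ := hP
  let ⟨p, c, d⟩ := hF
  ⟨fun a => (S (r a)).map (psub fun v => p (a, v)), PR.map (a.comp hr) (pr_psub
    (PR.comp (g := fun w : (α × Pol τ) × τ => (w.1.1, w.2)) c (by fun_prop)) (by fun_prop)),
    fun x e => by
      simp only [b, List.forall_mem_map, ev_psub, ← d]⟩

theorem ren {P : β → (τ → K) → Prop} {r : α → β} {F : α → τ → σ} (hP : Sy P) (hr : PR r)
    (hF : PR fun w : α × τ => F w.1 w.2) : Sy fun a e => P (r a) fun v => e (F a v) :=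
  hP.subst hr (Tm.var hF)

end Sy

theorem elim_map {A B C D : Type} (e : A → D) (w : C → D) (j : B → C) :
    (fun v => Sum.elim e w (Sum.elim Sum.inl (fun i => Sum.inr (j i)) v)) =
      Sum.elim e fun i => w (j i) := funext fun v => by cases v <;> rfl

namespace Ex

theorem of_iff (h : Ex P) (e : ∀ a x, P a x ↔ Q a x) : Ex Q :=
  (funext₂ fun a x => propext (e a x) : P = Q) ▸ h

theorem sy (h : Sy P) : Ex P :=
  ⟨ℕ, inferInstance, _, h.ren (F := fun _ v => Sum.inl v) PR.id (by fun_prop),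
    fun _ _ => ⟨fun h => ⟨0, h⟩, fun ⟨_, h⟩ => h⟩⟩

theorem eq (hf : Tm f) (hg : Tm g) : Ex fun a e => f a e = g a e := sy (Sy.eq hf hg)

theorem and (hP : Ex P) (hQ : Ex Q) : Ex fun a e => P a e ∧ Q a e := by
  obtain ⟨τ, _, S, a, b⟩ := hP
  obtain ⟨τ', _, T, c, d⟩ := hQ
  refine ⟨τ ⊕ τ', inferInstance, _,
    (a.ren (F := fun _ => Sum.elim Sum.inl fun i => Sum.inr (Sum.inl i)) PR.id
      (pr_elim (f := fun _ v => Sum.inl v) (g := fun _ i => Sum.inr (Sum.inl i))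
        (by fun_prop) (by fun_prop))).and
    (c.ren (F := fun _ => Sum.elim Sum.inl fun i => Sum.inr (Sum.inr i)) PR.id
      (pr_elim (f := fun _ v => Sum.inl v) (g := fun _ i => Sum.inr (Sum.inr i))
        (by fun_prop) (by fun_prop))), fun x e => ?_⟩
  simp only [elim_map, b, d]
  exact ⟨fun ⟨⟨w, h⟩, w', h'⟩ => ⟨Sum.elim w w', h, h'⟩, fun ⟨_, h, h'⟩ => ⟨⟨_, h⟩, _, h'⟩⟩

theorem or (hP : Ex P) (hQ : Ex Q) : Ex fun a e => P a e ∨ Q a e := by
  obtain ⟨τ, _, S, a, b⟩ := hP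
  obtain ⟨τ', _, T, c, d⟩ := hQ
  refine ⟨τ ⊕ τ', inferInstance, _,
    (a.ren (F := fun _ => Sum.elim Sum.inl fun i => Sum.inr (Sum.inl i)) PR.id
      (pr_elim (f := fun _ v => Sum.inl v) (g := fun _ i => Sum.inr (Sum.inl i))
        (by fun_prop) (by fun_prop))).or
    (c.ren (F := fun _ => Sum.elim Sum.inl fun i => Sum.inr (Sum.inr i)) PR.id
      (pr_elim (f := fun _ v => Sum.inl v) (g := fun _ i => Sum.inr (Sum.inr i))
        (by fun_prop) (by fun_prop))), fun x e => ?_⟩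
  simp only [elim_map, b, d]
  exact ⟨fun h => h.elim (fun ⟨w, h⟩ => ⟨Sum.elim w 0, Or.inl h⟩) fun ⟨w, h⟩ =>
    ⟨Sum.elim 0 w, Or.inr h⟩, fun ⟨_, h⟩ => h.imp (fun h => ⟨_, h⟩) fun h => ⟨_, h⟩⟩

theorem all {l : α → List β} {P : α → β → (σ → K) → Prop} (hl : PR l)
    (hP : Ex fun (w : α × β) e => P w.1 w.2 e) : Ex fun a e => ∀ b ∈ l a, P a b e := by
  obtain ⟨τ, _, S, a, b⟩ := hP
  refine ⟨β × τ, inferInstance, _, Sy.all (P := fun x v e => S (x, v) fun i =>
    e (Sum.elim Sum.inl (fun i => Sum.inr (v, i)) i)) hl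
    (a.ren (F := fun w : α × β => Sum.elim Sum.inl fun i => Sum.inr (w.2, i)) PR.id
      (pr_elim (f := fun _ v => Sum.inl v) (g := fun (w : α × β) i => Sum.inr (w.2, i))
        (by fun_prop) (by fun_prop))), fun x e => ?_⟩
  simp only [elim_map]
  refine ⟨fun h => ?_, fun ⟨w, h⟩ v hv => (b (x, v) e).2 ⟨_, h v hv⟩⟩
  choose! w hw using fun v hv => (b (x, v) e).1 (h v hv)
  exact ⟨fun i => w i.1 i.2, hw⟩

theorem blk {P : α → (τ → K) → (σ → K) → Prop}
    (hP : Ex fun a (e : σ ⊕ τ → K) => P a (fun i => e (Sum.inr i)) fun i => e (Sum.inl i)) :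
    Ex fun a e => ∃ w, P a w e := by
  obtain ⟨ρ, _, S, a, b⟩ := hP
  refine ⟨τ ⊕ ρ, inferInstance, _, a.ren (F := fun _ => Sum.elim
    (Sum.elim Sum.inl fun i => Sum.inr (Sum.inl i)) fun i => Sum.inr (Sum.inr i)) PR.id
    (pr_elim (f := fun _ => Sum.elim Sum.inl fun i => Sum.inr (Sum.inl i))
      (g := fun _ i => Sum.inr (Sum.inr i)) (pr_elim (f := fun _ v => Sum.inl v)
      (g := fun _ i => Sum.inr (Sum.inl i)) (by fun_prop) (by fun_prop)) (by fun_prop)),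
    fun x e => ?_⟩
  have k : ∀ w : τ ⊕ ρ → K, (fun v => Sum.elim e w (Sum.elim (Sum.elim Sum.inl fun i =>
      Sum.inr (Sum.inl i)) (fun i => Sum.inr (Sum.inr i)) v)) =
      Sum.elim (Sum.elim e fun i => w (Sum.inl i)) fun i => w (Sum.inr i) :=
    fun w => funext fun v => by rcases v with (_ | _) | _ <;> rfl
  simp only [k]
  exact ⟨fun ⟨w, h⟩ => let ⟨u, hu⟩ := (b x (Sum.elim e w)).1 h; ⟨Sum.elim w u, hu⟩,
    fun ⟨_, h⟩ => ⟨_, (b x _).2 ⟨_, h⟩⟩⟩

theorem ex {P : α → K → (σ → K) → Prop}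
    (hP : Ex fun a (e : σ ⊕ Unit → K) => P a (e (Sum.inr ())) fun i => e (Sum.inl i)) :
    Ex fun a e => ∃ z, P a z e :=
  (blk (P := fun a w e => P a (w ()) e) hP).of_iff fun _ _ =>
    ⟨fun ⟨_, h⟩ => ⟨_, h⟩, fun ⟨z, h⟩ => ⟨fun _ => z, h⟩⟩

theorem subst {P : β → (τ → K) → Prop} {r : α → β} {F : α → τ → (σ → K) → K} (hP : Ex P)
    (hr : PR r) (hF : Tm fun (w : α × τ) e => F w.1 w.2 e) :
    Ex fun a e => P (r a) fun v => F a v e := by
  obtain ⟨ρ, _, S, a, b⟩ := hP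
  refine ⟨ρ, inferInstance, _, a.subst (F := fun x v (e : σ ⊕ ρ → K) =>
    Sum.elim (fun v => F x v fun i => e (Sum.inl i)) (fun i => e (Sum.inr i)) v) hr
    (Tm.elim (F := fun x v (e : σ ⊕ ρ → K) => F x v fun i => e (Sum.inl i))
      (G := fun _ i e => e (Sum.inr i))
      (hF.subst (F := fun _ i (e : σ ⊕ ρ → K) => e (Sum.inl i)) (Tm.var (by fun_prop)))
      (Tm.var (by fun_prop))), fun x e => b _ _⟩

theorem ne (hf : Tm f) (hg : Tm g) : Ex fun a e => f a e ≠ g a e :=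
  (ex (P := fun a z e => z * (f a e - g a e) = 1) (eq ((Tm.var (PR.const _)).mul
    ((hf.sub hg).subst (F := fun _ i (e : σ ⊕ Unit → K) => e (Sum.inl i))
      (Tm.var (by fun_prop)))) Tm.one)).of_iff fun _ _ =>
    ⟨fun ⟨_, h⟩ => sub_ne_zero.1 (right_ne_zero_of_mul_eq_one h),
      fun h => ⟨_, inv_mul_cancel₀ (sub_ne_zero.2 h)⟩⟩

theorem not (h : Al P) : Ex fun a e => ¬ P a e := h

theorem imp (hP : Al P) (hQ : Ex Q) : Ex fun a e => P a e → Q a e :=
  (or hP hQ).of_iff fun _ _ => imp_iff_not_or.symm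

end Ex

namespace Al

theorem eq (hf : Tm f) (hg : Tm g) : Al fun a e => f a e = g a e := Ex.ne hf hg

theorem not (h : Ex P) : Al fun a e => ¬ P a e := h.of_iff fun _ _ => not_not.symm

theorem ne (hf : Tm f) (hg : Tm g) : Al fun a e => f a e ≠ g a e := not (Ex.eq hf hg)

theorem and (hP : Al P) (hQ : Al Q) : Al fun a e => P a e ∧ Q a e :=
  (Ex.or hP hQ).of_iff fun _ _ => not_and_or.symm

theorem or (hP : Al P) (hQ : Al Q) : Al fun a e => P a e ∨ Q a e :=
  (Ex.and hP hQ).of_iff fun _ _ => not_or.symm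

theorem imp (hP : Ex P) (hQ : Al Q) : Al fun a e => P a e → Q a e :=
  (Ex.and hP hQ).of_iff fun _ _ => Classical.not_imp.symm

theorem all {P : α → K → (σ → K) → Prop}
    (hP : Al fun a (e : σ ⊕ Unit → K) => P a (e (Sum.inr ())) fun i => e (Sum.inl i)) :
    Al fun a e => ∀ z, P a z e :=
  (Ex.ex (P := fun a z e => ¬ P a z e) hP).of_iff fun _ _ => not_forall.symm

end Al

end Pool.Agent.Lib.MP_d6ddbd_nt.TZ
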