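import Pool.Agent.Lib.MP_d6ddbd_nt.TZ.Re
import Pool.Agent.Lib.MP_d6ddbd_nt.TZ.CmA
import Pool.Agent.Lib.MP_d6ddbd_nt.TZ.CmB
import Pool.Agent.Lib.MP_d6ddbd_nt.GC.Fin

/-! The algorithm for the torsors of the twists. -/

set_option autoImplicit false

open Filter Topology MvPolynomial
open Pool.Agent.Sand.Check
open Pool.Agent.Lib.MP_02f36d_nt (xc yc)
open Pool.Agent.Lib.MP_02f36d_nt.X11 (Wd Sel bd_of)
open Pool.Agent.Lib.MP_d6ddbd_nt.KA (Blk wA)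
open scoped Classical

noncomputable section

namespace Pool.Agent.Lib.MP_d6ddbd_nt.TZ

theorem mem_tw {F : Type} [Field F] {d : ℤ} {p : F × F} :
    p ∈ Zer F [[1264, 0, d], [160], [4], [-1]] ↔
      d * p.2 ^ 2 = p.1 ^ 3 - 4 * p.1 ^ 2 - 160 * p.1 - 1264 := by
  simp only [Zer, Set.mem_ofPred_eq]
  simp [Finset.sum_range_succ]
  constructor <;> intro h <;> linear_combination h

theorem tors_tw {d : ℤ} (hd : d ≠ 0) : Tors [[1264, 0, d], [160], [4], [-1]] (Wd d) := by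
  have d0 : (d : K) ≠ 0 := Int.cast_ne_zero.2 hd
  have h : ∀ p ∈ Zer K [[1264, 0, d], [160], [4], [-1]], ∃ P : EK d,
      P ≠ 0 ∧ xc P = d * p.1 ∧ yc P = d ^ 2 * p.2 := fun p hp => ex_pt hd (by
    rw [OnE]
    linear_combination (d : K) ^ 3 * mem_tw.1 hp)
  choose! ψ h1 h2 h3 using h
  refine ⟨_, fun p => (d * p.1, d ^ 2 * p.2), fun p => (p.1 / d, p.2 / d ^ 2), ψ, subset_rfl,
    by simp, (Set.finite_singleton 0).subset fun P hP => by_contra fun k => hP ?_,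
    ⟨C (d : K) * X 0, C ((d : K) ^ 2) * X 1, 1, fun p _ => by simp⟩,
    ⟨C ((d : K)⁻¹) * X 0, C ((d : K)⁻¹ ^ 2) * X 1, 1, fun p _ => by simp [div_eq_inv_mul]⟩,
    fun p hp => ⟨by simp [d0], ?_⟩, fun σ => ⟨0, fun p hp hq => ?_⟩⟩
  · have e : (xc P / d, yc P / d ^ 2) ∈ Zer K [[1264, 0, d], [160], [4], [-1]] := by
      have := onE_pt k
      rw [OnE] at this
      rw [mem_tw]
      field_simp
      linear_combination this
    exact ⟨_, e, MP_02f36d_nt.pt_ext (h1 _ e) k (by rw [h2 _ e]; field_simp)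
      (by rw [h3 _ e]; field_simp)⟩
  · obtain ⟨x, y, a, b⟩ := MP_02f36d_nt.exists_some (h1 p hp)
    have c := h2 p hp
    have e := h3 p hp
    rw [b] at c e
    cases c
    cases e
    exact ⟨a, b⟩
  · rw [add_zero (gal σ (ψ p))]
    exact MP_02f36d_nt.pt_ext (h1 _ hq) (mt (gal_zero σ).1 (h1 p hp))
      (by rw [xc_gal, h2 _ hq, h2 p hp]; simp) (by rw [yc_gal, h3 _ hq, h3 p hp]; simp)

theorem fin_of (hM : sMW) (h : GC.CertStmt) : ∃ A : List (List ℤ) →. Bool, Partrec A ∧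
    (∀ L, ∀ b ∈ A L, ((Zer ℚ L).Infinite ↔ b = true)) ∧
    (∀ d : ℤ, Squarefree d → ¬ Blk d → ∀ k : ℕ, (Sel (Wd d) (2 ^ k)).encard < 4 ^ k →
      (∀ L, Tors L (Wd d) → (A L).Dom) ∧ ∃ b ∈ A [[1264, 0, d], [160], [4], [-1]],
        (b = true ↔ (11 ∣ d ∧ 0 < d) ∨ jacobiSym |d| 11 = -1)) ∧
    Tendsto (fun X : ℕ => (({d : ℤ | |d| ≤ X ∧ Squarefree d ∧
      ∃ L, Tors L (Wd d) ∧ ¬ (A L).Dom}.ncard : ℕ) : ℝ) / X) atTop (𝓝 0) := by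
  obtain ⟨C, h1, h2, h3⟩ := h
  have r1 : RE fun L : List (List ℤ) => ∃ d h g g' F F', (C d ∧ wA d = -1) ∧
      Str d L h g g' F F' ∧ ∃ Q : ℤ × ℤ × ℤ, Q.2.2 ≠ 0 ∧ ∀ x y, Rq Q x y → Gd L g x y := by
    iterate 6 refine RE.ex ?_
    refine RE.and (RE.and ((GC.re_of h1).comp ?_) (PP.re (GC.wA_pp.comp ?_))) (RE.and
      (re_str ?_ ?_ ?_ ?_ ?_ ?_ ?_) (RE.ex (RE.and (PP.re ?_) (re_yes ?_ ?_ ?_)))) <;> fun_prop
  have r2 : RE fun L : List (List ℤ) => ∃ d h g g' F F', C d ∧ Str d L h g g' F F' ∧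
      (¬ wA d = -1 ∨ wA d = -1 ∧ ∃ N B R R0, Cov d L h g g' F N B R R0) := by
    iterate 6 refine RE.ex ?_
    refine RE.and ((GC.re_of h1).comp ?_) (RE.and (re_str ?_ ?_ ?_ ?_ ?_ ?_ ?_) (RE.or
      (PP.re (GC.wA_pp.not.comp ?_)) (RE.and (PP.re (GC.wA_pp.comp ?_)) (RE.ex (RE.ex (RE.ex (RE.ex
      (re_cov ?_ ?_ ?_ ?_ ?_ ?_ ?_ ?_ ?_ ?_)))))))) <;> fun_prop
  obtain ⟨A, a1, a2⟩ := GC.merge r1 r2
  have m : ∀ d, C d → wA d = -1 → Mw d := fun d c w =>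
    (hM d (h2 d c).1).2 ((h2 d c).2.2.1 w) (h2 d c).2.2.2
  have s : ∀ L, ∀ b ∈ A L, ((Zer ℚ L).Infinite ↔ b = true) := fun L b hb => by
    rcases (a2 L).1 b hb with ⟨rfl, d, h, g, g', F, F', ⟨c, w⟩, t, Q, q, k⟩ |
      ⟨rfl, d, h, g, g', F, F', c, t, w | ⟨w, N, B, R, R0, k⟩⟩
    · obtain ⟨x, y, e⟩ := rq_ex q
      simpa using (snd _ _ _ _ _ _ _ t).1 (m d c w).1 x y (rq_rt q e).1 (rq_rt q e).2 (k x y e)
    · simpa using (snd _ _ _ _ _ _ _ t).2.1 ((hM d t.d0).1 ((h2 d c).2.1 w))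
    · simpa using (snd _ _ _ _ _ _ _ t).2.2.1 N B R R0 (m d c w) k
  have dm : ∀ d, C d → ∀ L, Tors L (Wd d) → (A L).Dom := fun d c L t => by
    obtain ⟨h, g, g', F, F', t, o⟩ := cmA d L (h2 d c).1 t
    refine (a2 L).2 ?_
    by_cases w : wA d = -1
    · by_cases i : (Zer ℚ L).Finite
      · exact Or.inr ⟨d, h, g, g', F, F', c, t, Or.inr ⟨w, cmB _ _ _ _ _ _ _ t o (m d c w) i⟩⟩
      · exact Or.inl ⟨d, h, g, g', F, F', ⟨c, w⟩, t, (snd _ _ _ _ _ _ _ t).2.2.2 i⟩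
    · exact Or.inr ⟨d, h, g, g', F, F', c, t, Or.inl w⟩
  refine ⟨A, a1, s, fun d sd nb k hk => ?_, squeeze_zero (fun X => by positivity) (fun X => ?_)
    (GQ.den_all h3)⟩
  · have c := h3 d sd nb (bd_of sd.ne_zero hk)
    obtain ⟨b, hb⟩ := Part.dom_iff_mem.1 (dm d c _ (tors_tw sd.ne_zero))
    refine ⟨dm d c, b, hb, ?_⟩
    rw [← s _ b hb, ← KA.wA_eq, show Zer ℚ _ = K11.Tw d from Set.ext fun _ => mem_tw]
    exact ⟨fun i => by_contra fun n => i ((h2 d c).2.1 n), (h2 d c).2.2.1⟩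
  · gcongr
    exacts [GC.fin_box _ _, fun ⟨L, a, b⟩ c => b (dm _ c L a)]

end Pool.Agent.Lib.MP_d6ddbd_nt.TZ
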