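import Pool.Agent.Lib.MP_d6ddbd_nt.TZ.Null

/-! Finite sets without rational points are recursively enumerable. -/

set_option autoImplicit false

open Pool.Agent.Sand.Check Polynomial

noncomputable section

namespace Pool.Agent.Lib.MP_d6ddbd_nt.TZ

/-- The test for rational roots. -/
def NoRt (c : List ℤ) : Prop := ∀ k ∈ List.range ((c.getD 0 0).natAbs + 1),
  hor c ((k : ℤ) : K) ≠ 0 ∧ hor c ((-k : ℤ) : K) ≠ 0

theorem noRt_iff {c : List ℤ} : NoRt c ↔ ∀ x, Rt x → hor c x ≠ 0 := by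
  refine ⟨fun h _ ⟨q, e⟩ k => ?_, fun h k _ => ⟨h _ ⟨k, by simp⟩, h _ ⟨-k, by simp⟩⟩⟩
  rw [← e, ← eq_ratCast (algebraMap ℚ K), ← hor_map, map_eq_zero, ← hor_aeval] at k
  obtain ⟨z, rfl⟩ := isInteger_of_is_root_of_monic (hor_monic c).1 k
  rw [hor_aeval, ← hor_map, map_eq_zero_iff _ (RingHom.injective_int _)] at k
  have k' : hor c (z : K) = 0 := by
    rw [← eq_intCast (algebraMap ℤ K), ← hor_map, k, map_zero]
  rcases c with _ | ⟨a, c⟩
  · exact one_ne_zero k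
  have a0 : a ≠ 0 := by simpa [hor_cons] using (h 0 (by simp)).1
  have b : z.natAbs ≤ a.natAbs := Int.natAbs_le_of_dvd_ne_zero
    ⟨-hor c z, by rw [hor_cons, Int.cast_id] at k; linear_combination k⟩ a0
  have := h z.natAbs (List.mem_range.2 (Nat.lt_succ_of_le b))
  rcases Int.natAbs_eq z with e | e <;> rw [← e] at this
  exacts [this.1 k', this.2 k']

theorem irr_iff {X : K → K → Prop} : Irr X ↔
    (∃ g : ℤ × List ℤ, g.1 ≠ 0 ∧ ∀ x y, X x y → Gr g x y) ∧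
    ∃ (m n : ℤ) (c : List ℤ), NoRt c ∧ ∀ x y, X x y → hor c (m * x + n * y) = 0 := by
  refine ⟨fun ⟨h, k⟩ => ⟨(ex_gr _ h).imp fun g a => ⟨a.1, fun x y b => a.2 (x, y) b⟩, ?_⟩,
    fun ⟨⟨g, a, b⟩, m, n, c, h, k⟩ => ⟨(gr_fin a).subset fun p hp => b _ _ hp, ?_⟩⟩
  · obtain ⟨n, hn⟩ : ∃ n : ℤ, n ∉ ⋃ p ∈ {p : K × K | X p.1 p.2}, {n : ℤ | Rt (p.1 + n * p.2)} := by
      refine Set.Finite.exists_notMem (h.biUnion fun p hp => Set.Subsingleton.finite ?_)
      rintro n ⟨a, ha⟩ n' ⟨b, hb⟩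
      by_contra e
      have e' : (n : K) - n' ≠ 0 := by exact_mod_cast sub_ne_zero.2 e
      have hy : (((a - b) / (n - n') : ℚ) : K) = p.2 := by
        push_cast
        rw [ha, hb, div_eq_iff e']
        ring
      exact k _ _ hp ⟨⟨a - n * ((a - b) / (n - n')), by rw [← sub_eq_iff_eq_add.2 ha, ← hy]; simp⟩,
        _, hy⟩
    have h' := h.image fun p : K × K => p.1 + (n : K) * p.2
    obtain ⟨m, m0, hm⟩ := ex_int _ h'
    obtain ⟨c, hc⟩ := ex_hor _ (∏ x ∈ h'.toFinset, minpoly ℤ ((m : K) * x)) rfl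
      (monic_prod_of_monic _ _ fun x hx => minpoly.monic (hm x (h'.mem_toFinset.1 hx)))
    refine ⟨m, m * n, c, noRt_iff.2 fun q hq e => ?_, fun x y a => ?_⟩
    · rw [← hor_aeval, hc, map_prod, Finset.prod_eq_zero_iff] at e
      obtain ⟨z, hz, e⟩ := e
      have hz' := h'.mem_toFinset.1 hz
      rw [← aeval_map_algebraMap ℚ, ← minpoly.isIntegrallyClosed_eq_field_fractions' ℚ
        (hm z hz')] at e
      obtain ⟨σ, hσ⟩ := minpoly.exists_algEquiv_of_root (Algebra.IsAlgebraic.isAlgebraic _) e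
      rw [rt_iff.1 hq] at hσ
      obtain ⟨p, hp, rfl⟩ := hz'
      obtain ⟨r, rfl⟩ := hq
      refine hn (Set.mem_biUnion hp ⟨r / m, ?_⟩)
      push_cast
      rw [hσ, mul_div_cancel_left₀ _ (Int.cast_ne_zero.2 m0)]
    · rw [← hor_aeval, hc, map_prod]
      refine Finset.prod_eq_zero (h'.mem_toFinset.2 ⟨(x, y), a, rfl⟩) ?_
      rw [Int.cast_mul, mul_assoc, ← mul_add]
      exact minpoly.aeval _ _
  · rintro _ _ e ⟨⟨a, rfl⟩, b, rfl⟩
    exact noRt_iff.1 h _ ⟨m * a + n * b, by simp⟩ (k _ _ e)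

variable {α β σ : Type} [Primcodable α] [Primcodable β] [Primcodable σ]

theorem Ex.comp {P : β → (σ → K) → Prop} {r : α → β} (hP : Ex P) (hr : PR r) :
    Ex fun a => P (r a) := hP.subst hr (Tm.var (by fun_prop))

theorem re_noRt : RE NoRt :=
  RE.all (PR.range (by fun_prop)) (Al.re (Al.and (Al.ne (Tm.hor (by fun_prop)
    (Tm.int (by fun_prop))) Tm.zero) (Al.ne (Tm.hor (by fun_prop) (Tm.int (by fun_prop))) Tm.zero)))

theorem re_irr {X : α → K → K → Prop} (h : Ex fun a (e : Bool → K) => X a (e true) (e false)) :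
    RE fun a => Irr (X a) := by
  have k : ∀ {γ : Type} {P : γ → K → K → Prop} (a : γ), (∀ e : Bool → K, P a (e true) (e false)) ↔
      ∀ x y, P a x y := fun a => ⟨fun h x y => h fun b => cond b x y, fun h _ => h _ _⟩
  have v : ∀ {γ : Type} [Primcodable γ] (b : Bool), Tm fun (_ : γ) (e : Bool → K) => e b :=
    fun b => Tm.var (PR.const b)
  simp only [irr_iff]
  refine RE.and (RE.ex (RE.and (PP.re (by fun_prop)) (RE.of_iff (Al.re' ?_) k)))
    (RE.ex (RE.ex (RE.ex (RE.and (re_noRt.comp (by fun_prop)) (RE.of_iff (Al.re' ?_) k)))))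
  · exact Al.imp (h.comp (by fun_prop)) (Al.and
      (Al.eq (Tm.hor (by fun_prop) ((Tm.int (by fun_prop)).mul (v _))) Tm.zero)
      (Al.eq (Tm.hor (by fun_prop) ((Tm.int (by fun_prop)).mul (v _))) Tm.zero))
  · exact Al.imp (h.comp (by fun_prop)) (Al.eq (Tm.hor (by fun_prop) (((Tm.int (by fun_prop)).mul
      (v _)).add ((Tm.int (by fun_prop)).mul (v _)))) Tm.zero)

end Pool.Agent.Lib.MP_d6ddbd_nt.TZ
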