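import Pool.Agent.Lib.MP_d6ddbd_nt.TZ.Bas
import Pool.Agent.Lib.MP_02f36d_nt.X11.Rank

/-! The group of rational points of a twist. -/

set_option autoImplicit false

open WeierstrassCurve WeierstrassCurve.Affine Height DirectSum
open Pool.Agent.C17 Pool.Agent.Lib.MP_02f36d_nt Pool.Agent.Lib.MP_02f36d_nt.X11
open Pool.Agent.Lib.MP_d6ddbd_nt.K11 Pool.Agent.Lib.MP_d6ddbd_nt.KI
open scoped Classical

noncomputable section

namespace Pool.Agent.Lib.MP_d6ddbd_nt.TZ

theorem index_nsmul {A : Type} [AddCommGroup A] (hG : AddGroup.FG A) : ∃ n : ℕ,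
    (n = 0 → Finite A) ∧ ∀ N : ℕ, N ≠ 0 →
      (nsmulAddMonoidHom (α := A) N).range.index = N ^ n * Nat.card {P : A // N • P = 0} := by
  obtain ⟨n, T, _, _, ⟨f⟩⟩ : ∃ (n : ℕ) (T : Type) (_ : AddCommGroup T) (_ : Finite T),
      Nonempty (A ≃+ (Fin n →₀ ℤ) × T) := by
    obtain ⟨n, ι, _, p, hp, e, f⟩ := AddCommGroup.equiv_free_prod_directSum_zmod A
    have : ∀ i, NeZero (p i ^ e i) := fun i => ⟨pow_ne_zero _ (hp i).ne_zero⟩
    exact ⟨n, _, _, Finite.of_equiv _ DFinsupp.equivFunOnFintype.symm, f⟩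
  refine ⟨n, fun h => by subst h; exact Finite.of_equiv _ f.symm.toEquiv, fun N hN => ?_⟩
  have h1 : (nsmulAddMonoidHom (α := A) N).range =
      ((nsmulAddMonoidHom (α := Fin n →₀ ℤ) N).range.prod (nsmulAddMonoidHom (α := T) N).range).comap
        f.toAddMonoidHom := by
    ext x
    simp only [AddSubgroup.mem_comap, AddSubgroup.mem_prod, AddMonoidHom.mem_range,
      nsmulAddMonoidHom_apply]
    refine ⟨fun ⟨y, h⟩ => ⟨⟨(f y).1, by simp [← h]⟩, (f y).2, by simp [← h]⟩,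
      fun ⟨⟨a, ha⟩, b, hb⟩ => ⟨f.symm (a, b), f.injective ?_⟩⟩
    rw [map_nsmul, f.apply_symm_apply]
    exact Prod.ext ha hb
  rw [h1, AddSubgroup.index_comap_of_surjective _ f.surjective, AddSubgroup.index_prod,
    AddSubgroup.index_range_nsmul, AddSubgroup.index_range, Module.finrank_finsupp_self,
    Fintype.card_fin]
  congr 1
  refine Nat.card_congr ⟨fun x => ⟨f.symm (0, x.1), f.injective ?_⟩, fun x => ⟨(f x.1).2, ?_⟩,
    fun x => by simp, fun x => Subtype.ext (f.injective ?_)⟩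
  · rw [map_nsmul, f.apply_symm_apply, map_zero]
    exact Prod.ext (smul_zero _) x.2
  · exact congrArg Prod.snd ((map_nsmul f N x.1).symm.trans ((congrArg f x.2).trans f.map_zero))
  · have : N • (f x.1).1 = 0 :=
      congrArg Prod.fst ((map_nsmul f N x.1).symm.trans ((congrArg f x.2).trans f.map_zero))
    rw [f.apply_symm_apply, ← (smul_eq_zero.1 this).resolve_left hN]

variable {d : ℤ}

theorem ex_cub : ∃ (L : Type) (_ : Field L) (_ : NumberField L) (θ : L),
    θ ^ 3 - 4 * θ ^ 2 - 160 * θ - 1264 = 0 := by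
  obtain ⟨s, hs⟩ := hor_root (c := [-1264, -160, -4]) (by simp)
  have : FiniteDimensional ℚ (IntermediateField.adjoin ℚ {s}) :=
    IntermediateField.adjoin.finiteDimensional (Algebra.IsIntegral.isIntegral s)
  refine ⟨IntermediateField.adjoin ℚ {s}, inferInstance, {},
    IntermediateField.AdjoinSimple.gen ℚ s, (algebraMap _ K).injective ?_⟩
  simp only [map_sub, map_mul, map_pow, map_ofNat, map_zero,
    IntermediateField.AdjoinSimple.algebraMap_gen]
  simp [hor] at hs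
  linear_combination hs

theorem fg (hd : d ≠ 0) [Infinite (Fix d)]
    (h0 : (nsmulAddMonoidHom (α := Fix d) 2).range.index ≠ 0) : AddGroup.FG (Fix d) := by
  obtain ⟨L, _, _, θ, t⟩ := ex_cub
  have hdL : (d : L) ≠ 0 := Int.cast_ne_zero.2 hd
  obtain ⟨a, ha⟩ : ∃ a : L, a = 3 * d * θ - 4 * d := ⟨_, rfl⟩
  obtain ⟨b, hb⟩ : ∃ b : L, b = d ^ 2 * fd θ := ⟨_, rfl⟩
  let U : Affine L := (Wd d).toAffine.map (algebraMap ℚ L)
  have hC : (⟨1, -(d * θ), 0, 0⟩ : VariableChange L) • (Rk.cv a b).toAffine = U := by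
    ext <;> simp [U, Wd, Rk.cv, variableChange_def, ha, hb, fd]
    · ring
    · ring
    · linear_combination -(d : L) ^ 3 * t
  have : (Rk.cv a b).IsElliptic := ⟨isUnit_iff_ne_zero.2 (by
    have : (Rk.cv a b).Δ = -(2 ^ 12 * 11 ^ 5 * (d : L) ^ 6) := by
      simp only [Rk.cv, Δ, b₂, b₄, b₆, b₈, ha, hb, fd]
      linear_combination d ^ 6 * (-432 * θ ^ 3 + 1728 * θ ^ 2 + 69120 * θ - 734464) * t
    rw [this, neg_ne_zero]
    exact mul_ne_zero (by norm_num) (pow_ne_zero _ hdL))⟩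
  let j : (Wd d).toAffine.Point →+ EK d := ptMap (algebraMap ℚ K) rfl
  have hj : j.range = Fix d := AddSubgroup.ext fun P => mem_fix.trans ⟨fun ⟨⟨x, hx⟩, y, hy⟩ =>
    mem_range_ptMap rfl hx.symm hy.symm, fun ⟨Q, hQ⟩ =>
      hQ ▸ ⟨⟨_, (xc_ptMap rfl Q).symm⟩, _, (yc_ptMap rfl Q).symm⟩⟩ |>.symm
  let e := (AddMonoidHom.ofInjective (f := j) (ptMap_injective rfl)).trans
    (AddEquiv.addSubgroupCongr hj)
  have : Infinite (Wd d).toAffine.Point := Infinite.of_injective _ e.symm.injective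
  have : Infinite U.Point := Infinite.of_injective _ (ptMap_injective (V' := U) rfl)
  let ι : Fix d →+ Rk.G a b :=
    ((vcMap hC).comp (ptMap (algebraMap ℚ L) rfl)).comp e.symm.toAddMonoidHom
  have hι : Function.Injective ι :=
    ((injective_iff_map_eq_zero ((vcMap hC).comp (ptMap (algebraMap ℚ L) rfl))).2 fun P h =>
      by_contra fun k => (vcMap_spec hC (ptMap_ne rfl k)).1 h).comp e.symm.injective
  obtain ⟨C, hC⟩ := Rk.ht_par (a := a) (b := b)
  have : Northcott (Rk.ht ∘ ι) :=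
    ⟨fun B => (Northcott.finite_le (h := Rk.ht) B).preimage hι.injOn⟩
  exact AddCommGroup.fg_of_descent' (h := Rk.ht ∘ ι) (C := C) ⟨h0⟩ (fun P => logHeight_nonneg _)
    fun P Q => by simpa only [Function.comp_apply, map_add, map_sub] using hC (ι P) (ι Q)

theorem ex_equiv (hd : d ≠ 0) : Nonempty (Fix d ≃+ Pts.Inv d) := by
  obtain ⟨e, he⟩ := ex_e
  obtain ⟨ψ, h1, h2, h3⟩ := ex_psi hd (rt_sq d) (Pts.cq_rt d) e he
  have : (Fix d).map ψ = Pts.Inv d := by
    ext P
    refine ⟨fun ⟨Q, a, b⟩ σ => ?_, fun h => ?_⟩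
    · obtain ⟨s, hs⟩ := res_e e σ
      rw [← b, tw, ← h3 s σ hs]
      exact congrArg ψ (a s)
    · obtain ⟨Q, rfl⟩ : ∃ Q, ψ Q = P := (h2 P).1 (by
        by_cases h0 : P = 0
        · exact h0 ▸ r1_thm.1.1
        obtain ⟨x, y, -, a, b⟩ := Pts.toTw hd h h0
        exact ⟨a ▸ isAlgebraic_ratCast ℚ x, b ▸ (isAlgebraic_ratCast ℚ y).mul (Pts.alg_rt d)⟩)
      refine ⟨Q, fun s => h1 ?_, rfl⟩
      obtain ⟨σ, hσ⟩ := conj_e e (e.comp s.toAlgHom)
      exact (h3 s σ hσ Q).trans (h σ)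
  exact ⟨((Fix d).equivMapOfInjective ψ h1).trans (AddEquiv.addSubgroupCongr this)⟩

theorem mw : sMW := fun d hd => by
  obtain ⟨f⟩ := ex_equiv hd
  refine ⟨fun h => have := Pts.inv_fin hd h; Finite.of_equiv _ f.symm.toEquiv, fun h k => ?_⟩
  have : Infinite (Pts.Inv d) := by
    have a := fun p : Tw d => Pts.ofTw (x := p.1.1) (y := p.1.2) p.2
    choose g a _ _ b c using a
    have := h.to_subtype
    refine Infinite.of_injective (fun p => (⟨g p, a p⟩ : Pts.Inv d)) fun p q e => ?_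
    have e' : g p = g q := congrArg Subtype.val e
    have b' := b p
    have c' := c p
    rw [e', b q] at b'
    rw [e', c q] at c'
    exact Subtype.ext (Prod.ext (by exact_mod_cast b'.symm)
      (by exact_mod_cast (mul_right_cancel₀ (Pts.rt_ne hd) c').symm))
  have i : Infinite (Fix d) := Infinite.of_injective _ f.symm.injective
  let H := (nsmulAddMonoidHom (α := Fix d) 2).range
  have m : ∀ P : Fix d, (∃ R ∈ Pts.Inv d, (f P : Pt) = 2 • R) → P ∈ H := fun P ⟨R, a, b⟩ =>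
    ⟨f.symm ⟨R, a⟩, f.injective (by
      rw [nsmulAddMonoidHom_apply, map_nsmul, f.apply_symm_apply]
      exact Subtype.ext b.symm)⟩
  have s : ({0}ᶜ : Set (Fix d ⧸ H)).Subsingleton := by
    rintro ⟨P⟩ hP ⟨Q⟩ hQ
    rcases k _ (f P).2 _ (f Q).2 with t | t | t
    · exact (hP ((QuotientAddGroup.eq_zero_iff P).2 (m P t))).elim
    · exact (hQ ((QuotientAddGroup.eq_zero_iff Q).2 (m Q t))).elim
    · exact QuotientAddGroup.eq_iff_sub_mem.2 (m _ (by rwa [map_sub]))
  have : Finite (Fix d ⧸ H) := Set.finite_univ_iff.1 (by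
    rw [← Set.union_compl_self {0}]
    exact (Set.finite_singleton 0).union s.finite)
  have h2 : H.index ≤ 2 := by
    have a := Set.ncard_add_ncard_compl ({0} : Set (Fix d ⧸ H))
    have := (Set.ncard_le_one_iff_subsingleton).2 s
    rw [Set.ncard_singleton] at a
    rw [AddSubgroup.index]
    omega
  have h0 : H.index ≠ 0 := AddSubgroup.index_ne_zero_of_finite
  obtain ⟨n, a, b⟩ := index_nsmul (fg hd h0)
  obtain rfl : n = 1 := by
    have c := b 2 two_ne_zero
    have c0 : Nat.card {P : Fix d // 2 • P = 0} ≠ 0 := fun z => h0 (by rw [c, z, mul_zero])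
    have : 2 ^ n ≤ 2 ^ 1 := (Nat.le_mul_of_pos_right _ (Nat.pos_of_ne_zero c0)).trans (c ▸ h2)
    have := (Nat.pow_le_pow_iff_right one_lt_two).1 this
    have := mt a (not_finite_iff_infinite.2 i)
    omega
  exact ⟨i, fun N hN => by rw [b N hN, pow_one]⟩

end Pool.Agent.Lib.MP_d6ddbd_nt.TZ
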