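import Pool.Agent.Lib.MP_d6ddbd_nt.TZ.Irr

/-! The group law is an existential condition. -/

set_option autoImplicit false

open Pool.Agent.Sand.Check WeierstrassCurve WeierstrassCurve.Affine
open Pool.Agent.Lib.MP_02f36d_nt
open Pool.Agent.Lib.MP_02f36d_nt.X11 (Wd)
open scoped Classical

noncomputable section

namespace Pool.Agent.Lib.MP_d6ddbd_nt.TZ

/-- The addition formulas. -/
def Ad (d : ℤ) (z x y z' x' y' a b c : K) : Prop := Val d z x y ∧ Val d z' x' y' ∧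
  ((z = 0 ∧ a = z' ∧ b = x' ∧ c = y') ∨ (z' = 0 ∧ a = z ∧ b = x ∧ c = y) ∨
    (z = 1 ∧ z' = 1 ∧ x = x' ∧ y = -y' ∧ a = 0 ∧ b = 0 ∧ c = 0) ∨
    (z = 1 ∧ z' = 1 ∧ (x ≠ x' ∨ y ≠ -y') ∧ ∃ l, l * (x - x') = y - y' ∧
      l * (y + y') = x ^ 2 + x * x' + x' ^ 2 - 4 * (d : K) * (x + x') - 160 * (d : K) ^ 2 ∧
      a = 1 ∧ b = l ^ 2 + 4 * (d : K) - x - x' ∧ c = -(l * (b - x) + y)))

variable {d : ℤ}

theorem negY_eq (x y : K) : ((Wd d).toAffine.baseChange K).toAffine.negY x y = -y := by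
  simp [negY, Wd, WeierstrassCurve.baseChange]

theorem slope_iff {x y x' y' l : K} (h : OnE d x y) (h' : OnE d x' y') (k : x ≠ x' ∨ y ≠ -y') :
    l = ((Wd d).toAffine.baseChange K).toAffine.slope x x' y y' ↔ l * (x - x') = y - y' ∧
      l * (y + y') = x ^ 2 + x * x' + x' ^ 2 - 4 * (d : K) * (x + x') - 160 * (d : K) ^ 2 := by
  rw [OnE] at h h'
  by_cases e : x = x'
  · subst e
    have k1 := k.resolve_left (not_not.2 rfl)
    obtain rfl : y = y' := (sq_eq_sq_iff_eq_or_eq_neg.1 (h.trans h'.symm)).resolve_right k1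
    rw [slope_of_Y_ne rfl (by rwa [negY_eq]), negY_eq, eq_div_iff (sub_ne_zero.2 k1)]
    simp only [Wd, WeierstrassCurve.baseChange, map_a₁, map_a₂, map_a₄, map_mul, map_neg, map_pow,
      map_ofNat, map_intCast, map_zero, sub_self, mul_zero, true_and]
    constructor <;> intro t <;> linear_combination t
  · rw [slope_of_X_ne e, eq_div_iff (sub_ne_zero.2 e)]
    exact ⟨fun t => ⟨t, mul_left_cancel₀ (sub_ne_zero.2 e)
      (by linear_combination (y + y') * t + h - h')⟩, fun t => t.1⟩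

theorem ad_iff (hd : d ≠ 0) {z x y z' x' y' a b c : K} :
    Ad d z x y z' x' y' a b c ↔ MaT d 1 (z, x, y) (z', x', y') (a, b, c) := by
  have key : ∀ P Q : EK d, cod P = (z, x, y) → cod Q = (z', x', y') →
      (Ad d z x y z' x' y' a b c ↔ cod (P + Q) = (a, b, c)) := fun P Q hP hQ => by
    rw [Ad, and_iff_right ((val_iff hd).2 ⟨P, hP⟩), and_iff_right ((val_iff hd).2 ⟨Q, hQ⟩)]
    by_cases p : P = 0
    · rw [p, cod_zero] at hP
      cases hP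
      rw [p, zero_add Q, hQ]
      by_cases q : Q = 0
      · rw [q, cod_zero] at hQ
        cases hQ
        simp [eq_comm]
      · rw [cod_ne q] at hQ
        cases hQ
        simp [eq_comm]
    rw [cod_ne p] at hP
    cases hP
    by_cases q : Q = 0
    · rw [q, cod_zero] at hQ
      cases hQ
      rw [q, add_zero P, cod_ne p]
      simp [eq_comm]
    rw [cod_ne q] at hQ
    cases hQ
    by_cases k : xc P = xc Q ∧ yc P = -yc Q
    · rw [add_eq_zero_of_coords p q k.1 (by rw [negY_eq, k.2]), cod_zero]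
      simp [k.1, k.2, eq_comm]
    obtain ⟨k1, k2, k3⟩ := add_coords p q (by rwa [negY_eq])
    have k' := not_and_or.1 k
    simp only [← and_assoc (c := a = 1 ∧ _), ← slope_iff (onE_pt p) (onE_pt q) k', exists_eq_left]
    rw [cod_ne k1, k3, addY, negAddY, negY_eq, ← k2, Prod.mk.injEq, Prod.mk.injEq]
    have k4 : xc (P + Q) = ((Wd d).toAffine.baseChange K).toAffine.slope (xc P) (xc Q) (yc P)
        (yc Q) ^ 2 + 4 * (d : K) - xc P - xc Q := by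
      rw [k2]
      simp [addX, Wd, WeierstrassCurve.baseChange]
    rw [← k4]
    simp only [one_ne_zero, false_and, false_or, true_and, ← and_assoc (a := xc P = xc Q), k, k']
    exact ⟨fun ⟨a, b, c⟩ => ⟨a.symm, b.symm, by rw [c, b]⟩,
      fun ⟨a, b, c⟩ => ⟨a.symm, b.symm, by rw [← c, b]⟩⟩
  refine ⟨fun h => ?_, fun ⟨_, P, Q, a, b, c⟩ => (key P Q a b).2 (by rwa [one_smul] at c)⟩
  obtain ⟨P, hP⟩ := (val_iff hd).1 h.1
  obtain ⟨Q, hQ⟩ := (val_iff hd).1 h.2.1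
  exact ⟨hd, P, Q, hP, hQ, by rw [one_smul, (key P Q hP hQ).1 h]⟩

theorem mat_chain {N : ℕ} {z x y z' x' y' a b c : K} :
    MaT d N (z, x, y) (z', x', y') (a, b, c) ↔ ((d : K) ≠ 0 ∧ Val d z x y ∧ Val d z' x' y') ∧
      ∃ w : ℕ × ℕ → K, (w (0, 0) = z' ∧ w (0, 1) = x' ∧ w (0, 2) = y') ∧
        (w (N, 0) = a ∧ w (N, 1) = b ∧ w (N, 2) = c) ∧ ∀ i ∈ List.range N,
          Ad d z x y (w (i, 0)) (w (i, 1)) (w (i, 2)) (w (i + 1, 0)) (w (i + 1, 1))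
            (w (i + 1, 2)) := by
  constructor
  · rintro ⟨hd, P, Q, hP, hQ, h⟩
    refine ⟨⟨Int.cast_ne_zero.2 hd, (val_iff hd).2 ⟨P, hP⟩, (val_iff hd).2 ⟨Q, hQ⟩⟩, fun i =>
      [(cod (i.1 • P + Q)).1, (cod (i.1 • P + Q)).2.1, (cod (i.1 • P + Q)).2.2].getD i.2 0,
      by simp [hQ], by simp [h], fun i _ => (ad_iff hd).2 ⟨hd, P, i • P + Q, hP, rfl, ?_⟩⟩
    rw [one_smul, ← add_assoc, ← succ_nsmul']
    rfl
  · rintro ⟨⟨h0, hP, hQ⟩, w, ⟨rfl, rfl, rfl⟩, ⟨rfl, rfl, rfl⟩, h⟩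
    have hd := Int.cast_ne_zero.1 h0
    obtain ⟨P, hP⟩ := (val_iff hd).1 hP
    obtain ⟨Q, hQ⟩ := (val_iff hd).1 hQ
    refine ⟨hd, P, Q, hP, hQ, ?_⟩
    induction N with
    | zero => rwa [zero_smul, zero_add]
    | succ n ih =>
      have := (ad_iff hd).1 (h n (by simp))
      rw [← hP, ← ih fun i hi => h i (by simp at hi ⊢; omega), mat_iff hd] at this
      rwa [one_smul, ← add_assoc, ← succ_nsmul'] at this

variable {α σ : Type} [Primcodable α] [Primcodable σ]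

theorem Ex.mat {d : α → ℤ} {N : α → ℕ} {f₁ f₂ f₃ f₄ f₅ f₆ f₇ f₈ f₉ : α → (σ → K) → K} (hd : PR d)
    (hN : PR N) (h₁ : Tm f₁) (h₂ : Tm f₂) (h₃ : Tm f₃) (h₄ : Tm f₄) (h₅ : Tm f₅) (h₆ : Tm f₆)
    (h₇ : Tm f₇) (h₈ : Tm f₈) (h₉ : Tm f₉) : Ex fun a e => MaT (d a) (N a) (f₁ a e, f₂ a e, f₃ a e)
      (f₄ a e, f₅ a e, f₆ a e) (f₇ a e, f₈ a e, f₉ a e) := by
  have h : Ex fun (a : ℤ × ℕ) (e : ℕ → K) =>
      MaT a.1 a.2 (e 0, e 1, e 2) (e 3, e 4, e 5) (e 6, e 7, e 8) := by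
    simp only [mat_chain, Ad, Val, OnE]
    refine Ex.and ?_ (Ex.blk (Ex.and ?_ (Ex.and ?_ (Ex.all (by fun_prop) ?_)))) <;>
    with_reducible apply_rules (maxDepth := 1000) [Ex.and, Ex.or, Ex.ex, Ex.eq, Ex.ne, Tm.add,
      Tm.mul, Tm.sub, Tm.neg, Tm.pow, Tm.var, Tm.int, Tm.zero, Tm.one, Tm.num] <;> fun_prop
  exact h.subst (F := fun a v e => [f₁ a e, f₂ a e, f₃ a e, f₄ a e, f₅ a e, f₆ a e, f₇ a e, f₈ a e,
    f₉ a e].getD v 0) (hd.pair hN) (h₁.cons (h₂.cons (h₃.cons (h₄.cons (h₅.cons (h₆.cons (h₇.cons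
    (h₈.cons (h₉.cons Tm.nil)))))))) :)

end Pool.Agent.Lib.MP_d6ddbd_nt.TZ
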