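import Pool.Agent.Lib.MP_d6ddbd_nt.TZ.Ex

/-! Universal conditions are recursively enumerable, by the Nullstellensatz. -/

set_option autoImplicit false

open Pool.Agent.Sand.Check MvPolynomial
open scoped Classical

noncomputable section

namespace Pool.Agent.Lib.MP_d6ddbd_nt.TZ

section

variable {σ : Type}

/-- The exponents of a monomial. -/
def mon (l : List σ) : σ →₀ ℕ := (l.map fun v => Finsupp.single v 1).sum

/-- The number of occurrences. -/
def cnt (v : σ) (l : List σ) : ℕ := l.foldr (fun x s => if x = v then s + 1 else s) 0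

theorem mon_apply (l : List σ) (v : σ) : mon l v = cnt v l := by
  induction l with
  | nil => rfl
  | cons x l ih =>
    rw [mon, List.map_cons, List.sum_cons, ← mon, Finsupp.add_apply, ih, Finsupp.single_apply]
    change _ = if x = v then cnt v l + 1 else cnt v l
    split_ifs <;> omega

theorem cnt_zero {l : List σ} {v : σ} (h : v ∉ l) : cnt v l = 0 := by
  induction l with
  | nil => rfl
  | cons x l ih =>
    rw [List.mem_cons, not_or] at h
    exact (if_neg (Ne.symm h.1)).trans (ih h.2)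

theorem mon_eq {l l' : List σ} : mon l = mon l' ↔ ∀ v ∈ l ++ l', cnt v l = cnt v l' := by
  simp only [Finsupp.ext_iff, mon_apply]
  refine ⟨fun h v _ => h v, fun h v => by_contra fun k => k ?_⟩
  have := mt (h v) k
  rw [List.mem_append, not_or] at this
  rw [cnt_zero this.1, cnt_zero this.2]

theorem coeff_ev (p : Pol σ) (m : σ →₀ ℕ) : coeff m (ev (X : σ → MvPolynomial σ ℚ) p) =
    ((p.map fun n => if mon n.2 = m then n.1 else 0).sum : ℤ) := by
  have k : ∀ l : List σ, (l.map (X : σ → MvPolynomial σ ℚ)).prod = monomial (mon l) 1 := fun l => by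
    induction l with
    | nil => rfl
    | cons x l ih => rw [List.map_cons, List.prod_cons, ih, X, monomial_mul, one_mul]; rfl
  induction p with
  | nil => rfl
  | cons n p ih =>
    rw [ev_cons, coeff_add, ih, k, ← map_intCast (C : ℚ →+* MvPolynomial σ ℚ), coeff_C_mul,
      coeff_monomial]
    split_ifs with h <;> simp [h]

/-- The test for the zero polynomial. -/
def Zt (p : Pol σ) : Prop := ∀ m ∈ p, (p.map fun n => if mon n.2 = mon m.2 then n.1 else 0).sum = 0

theorem zt_iff {p : Pol σ} : Zt p ↔ ev (X : σ → MvPolynomial σ ℚ) p = 0 := by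
  simp only [MvPolynomial.ext_iff, coeff_ev, coeff_zero, Int.cast_eq_zero]
  refine ⟨fun h m => ?_, fun h m _ => h _⟩
  by_cases k : ∃ n ∈ p, mon n.2 = m
  · obtain ⟨n, a, rfl⟩ := k
    exact h n a
  · refine List.sum_eq_zero fun z hz => ?_
    obtain ⟨n, a, rfl⟩ := List.mem_map.1 hz
    exact if_neg fun b => k ⟨n, a, b⟩

theorem ev_congr {R : Type} [CommRing R] {e e' : σ → R} {p : Pol σ}
    (h : ∀ m ∈ p, ∀ v ∈ m.2, e v = e' v) : ev e p = ev e' p :=
  congrArg List.sum (List.map_congr_left fun m hm => by rw [List.map_congr_left (h m hm)])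

theorem ex_mv (r : MvPolynomial σ ℚ) :
    ∃ (n : ℤ) (q : Pol σ), n ≠ 0 ∧ (n : MvPolynomial σ ℚ) * r = ev X q := by
  induction r using MvPolynomial.induction_on with
  | C a =>
    refine ⟨a.den, [(a.num, [])], by simp, ?_⟩
    rw [ev_const, ← map_intCast (C : ℚ →+* MvPolynomial σ ℚ),
      ← map_intCast (C : ℚ →+* MvPolynomial σ ℚ), ← map_mul]
    exact congrArg C (by simp)
  | add a b ha hb =>
    obtain ⟨n, p, n0, hp⟩ := ha
    obtain ⟨m, q, m0, hq⟩ := hb
    refine ⟨n * m, pmul [(m, [])] p ++ pmul [(n, [])] q, mul_ne_zero n0 m0, ?_⟩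
    simp only [ev_append, ev_pmul, ev_const, ← hp, ← hq]
    push_cast
    ring
  | mul_X a i ha =>
    obtain ⟨n, p, n0, hp⟩ := ha
    exact ⟨n, pmul p [(1, [i])], n0, by rw [ev_pmul, ev_var, ← hp, mul_assoc]⟩

/-- A combination of polynomials. -/
def lin (W : List (Pol σ × Pol σ)) : Pol σ := W.flatMap fun w => pmul w.1 w.2

theorem ev_lin {R : Type} [CommRing R] (e : σ → R) (W : List (Pol σ × Pol σ)) :
    ev e (lin W) = (W.map fun w => ev e w.1 * ev e w.2).sum := by
  induction W with
  | nil => rfl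
  | cons w W ih => rw [lin, List.flatMap_cons, ev_append, ← lin, ih, ev_pmul]; rfl

theorem null (S : List (Pol σ)) : (∀ e : σ → K, ¬ ∀ p ∈ S, ev e p = 0) ↔
    ∃ (m : ℤ) (W : List (Pol σ × Pol σ)), m ≠ 0 ∧ (∀ w ∈ W, w.2 ∈ S) ∧ Zt ((-m, []) :: lin W) := by
  refine ⟨fun h => ?_, fun ⟨m, W, m0, a, b⟩ e h => ?_⟩
  · let V : List σ := S.flatMap fun p => p.flatMap fun m => m.2
    let j : σ → MvPolynomial {v // v ∈ V} ℚ := fun v => if h : v ∈ V then X ⟨v, h⟩ else 0
    let I : Ideal (MvPolynomial {v // v ∈ V} ℚ) := Ideal.span (ev j '' {p | p ∈ S})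
    have : Finite {v // v ∈ V} := List.finite_toSet V
    have h1 : (1 : MvPolynomial {v // v ∈ V} ℚ) ∈ I := by
      rw [← Ideal.eq_top_iff_one, ← Ideal.radical_eq_top,
        ← vanishingIdeal_zeroLocus_eq_radical (K := K), Ideal.eq_top_iff_one]
      exact fun x hx => (h (fun v => aeval x (j v)) fun p hp => by
        rw [← ev_map]
        exact hx _ (Ideal.subset_span ⟨p, hp, rfl⟩)).elim
    have h2 : ∀ x ∈ I, ∃ (m : ℤ) (W : List (Pol σ × Pol σ)), m ≠ 0 ∧ (∀ w ∈ W, w.2 ∈ S) ∧
        (m : MvPolynomial σ ℚ) * rename Subtype.val x = ev X (lin W) := fun x hx => by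
      have sc : ∀ (q : Pol σ) (W : List (Pol σ × Pol σ)), ev (X : σ → MvPolynomial σ ℚ)
          (lin (W.map fun w => (pmul q w.1, w.2))) = ev X q * ev X (lin W) := fun q W => by
        simp only [ev_lin, List.map_map, ← List.sum_map_mul_left, Function.comp_def, ev_pmul,
          mul_assoc]
      induction hx using Submodule.span_induction with
      | mem x hx =>
        obtain ⟨p, hp, rfl⟩ := hx
        refine ⟨1, [([(1, [])], p)], one_ne_zero, by simpa using hp, ?_⟩
        rw [ev_map, ev_lin, ev_congr (e' := X) fun m hm v hv => ?_]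
        · simp [ev_const]
        · have : v ∈ V := List.mem_flatMap.2 ⟨p, hp, List.mem_flatMap.2 ⟨m, hm, hv⟩⟩
          simp [j, this]
      | zero => exact ⟨1, [], one_ne_zero, by simp, by simp [lin, ev]⟩
      | add x y _ _ hx hy =>
        obtain ⟨m, W, m0, a, b⟩ := hx
        obtain ⟨n, W', n0, a', b'⟩ := hy
        refine ⟨m * n, W.map (fun w => (pmul [(n, [])] w.1, w.2)) ++
          W'.map fun w => (pmul [(m, [])] w.1, w.2), mul_ne_zero m0 n0, ?_, ?_⟩
        · simp only [List.forall_mem_append, List.forall_mem_map]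
          exact ⟨a, a'⟩
        · rw [lin, List.flatMap_append, ev_append, ← lin, ← lin, sc, sc, ← b, ← b', ev_const,
            ev_const, map_add]
          push_cast
          ring
      | smul r x _ hx =>
        obtain ⟨m, W, m0, a, b⟩ := hx
        obtain ⟨n, q, n0, c⟩ := ex_mv (rename Subtype.val r)
        refine ⟨m * n, W.map fun w => (pmul q w.1, w.2), mul_ne_zero m0 n0,
          List.forall_mem_map.2 a, ?_⟩
        rw [sc, ← b, ← c, smul_eq_mul, map_mul]
        push_cast
        ring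
    obtain ⟨m, W, m0, a, b⟩ := h2 1 h1
    exact ⟨m, W, m0, a, zt_iff.2 (by rw [ev_cons, ← b]; simp)⟩
  · have := congrArg (aeval e) (zt_iff.1 b)
    rw [ev_map, map_zero, ev_cons, ev_lin, List.sum_eq_zero fun z hz => ?_] at this
    · simp [m0] at this
    · obtain ⟨w, hw, rfl⟩ := List.mem_map.1 hz
      simp only [aeval_X]
      rw [h _ (a w hw), mul_zero]

end

variable {α σ : Type} [Primcodable α] [Primcodable σ]

theorem pp_zt : PP (Zt : Pol σ → Prop) := by
  have h1 : PR fun w : σ × List σ => cnt w.1 w.2 :=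
    pr_foldr (by fun_prop) (by fun_prop) (PR.ite (by fun_prop) (by fun_prop) (by fun_prop))
  have h2 : PP fun w : List σ × List σ => mon w.1 = mon w.2 :=
    (PP.all (l := fun w : List σ × List σ => w.1 ++ w.2) (by fun_prop) (PP.eq
      (h1.comp (g := fun w : (List σ × List σ) × σ => (w.2, w.1.1)) (by fun_prop))
      (h1.comp (g := fun w : (List σ × List σ) × σ => (w.2, w.1.2)) (by fun_prop)))).of_iff
      fun _ => mon_eq.symm
  have h3 : PR (List.sum : List ℤ → ℤ) :=
    pr_foldr (f := fun l : List ℤ => l) (h := fun _ a s => a + s) PR.id (PR.const 0)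
      (PR.zadd (by fun_prop) (by fun_prop))
  exact PP.all PR.id (PP.eq (h3.comp (PR.map (by fun_prop) (PR.ite (h2.comp
    (f := fun w : (Pol σ × ℤ × List σ) × ℤ × List σ => (w.2.2, w.1.2.2)) (by fun_prop))
    (by fun_prop) (by fun_prop)))) (by fun_prop))

theorem Al.re' {P : α → (σ → K) → Prop} (h : Al P) : RE fun a => ∀ e, P a e := by
  obtain ⟨τ, _, Q, ⟨S, a, b⟩, c⟩ := h
  have h1 : PR (lin : List (Pol (σ ⊕ τ) × Pol (σ ⊕ τ)) → _) := pr_flatMap PR.id (by fun_prop)
  refine RE.of_iff ?_ fun x => (null (S x)).symm.trans ⟨fun h e => by_contra fun k => ?_,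
    fun h e k => ?_⟩
  · exact RE.ex (RE.ex (PP.re (PP.and (by fun_prop) (PP.and (PP.all (by fun_prop) (by fun_prop))
      (pp_zt.comp (by fun_prop))))))
  · obtain ⟨w, hw⟩ := (c x e).1 k
    exact h _ ((b _ _).1 hw)
  · exact (c x _).2 ⟨_, by rw [Sum.elim_comp_inl_inr]; exact (b _ _).2 k⟩ (h _)

theorem Al.re {P : α → Prop} (h : Al fun a (_ : Unit → K) => P a) : RE P :=
  h.re'.of_iff fun _ => ⟨fun h => h 0, fun h _ => h⟩

end Pool.Agent.Lib.MP_d6ddbd_nt.TZ
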