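import Pool.Agent.Lib.MP_215a10_lc.Dec.Check1

/-! Sparse polynomials, and families of sets that are defined by polynomial equations. -/

set_option autoImplicit false

open Pool.Agent.Sand.Check

noncomputable section

namespace Pool.Agent.Lib.MP_d6ddbd_nt.TZ

/-- The algebraic closure of the rationals. -/
abbrev K : Type := AlgebraicClosure ℚ

/-- Sparse polynomials with integer coefficients. -/
abbrev Pol (σ : Type) : Type := List (ℤ × List σ)

/-- Evaluation. -/
def ev {R σ : Type} [CommRing R] (e : σ → R) (p : Pol σ) : R :=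
  (p.map fun m => (m.1 : R) * (m.2.map e).prod).sum

/-- Evaluation of a polynomial in three variables. -/
def ev3 {R : Type} [CommRing R] (p : Pol ℕ) (x y s : R) : R := ev (fun i => [x, y, s].getD i 0) p

/-- The monic polynomial with the lower coefficients `c`. -/
def hor {R : Type} [CommRing R] (c : List ℤ) (x : R) : R := c.foldr (fun a s => a + x * s) 1

/-- Rational elements. -/
def Rt (x : K) : Prop := ∃ q : ℚ, (q : K) = x

/-- Finite sets without rational points. -/
def Irr (X : K → K → Prop) : Prop :=
  {p : K × K | X p.1 p.2}.Finite ∧ ∀ x y, X x y → ¬ (Rt x ∧ Rt y)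

variable {α σ : Type} [Primcodable α] [Primcodable σ]

/-- Computable families of polynomial functions. -/
def Tm (f : α → (σ → K) → K) : Prop := ∃ p : α → Pol σ, PR p ∧ ∀ a e, f a e = ev e (p a)

/-- Computable families of projections of algebraic sets. -/
def Df (P : α → (σ → K) → Prop) : Prop := ∃ S : α → List (Pol (σ ⊕ ℕ)), PR S ∧
  ∀ a e, P a e ↔ ∃ w : ℕ → K, ∀ p ∈ S a, ev (Sum.elim e w) p = 0

/-- Their complements. -/
def Un (P : α → (σ → K) → Prop) : Prop := Df fun a e => ¬ P a e

end Pool.Agent.Lib.MP_d6ddbd_nt.TZ
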