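import Pool.Agent.Lib.MP_d6ddbd_nt.TZ.Mat

/-! The certificates are recursively enumerable. -/

set_option autoImplicit false

open Pool.Agent.Sand.Check

noncomputable section

namespace Pool.Agent.Lib.MP_d6ddbd_nt.TZ

variable {α σ : Type} [Primcodable α] [Primcodable σ]

theorem tm_zer {L : α → List (List ℤ)} {f g : α → (σ → K) → K} (hL : PR L) (hf : Tm f)
    (hg : Tm g) : Tm fun a e => ∑ i ∈ Finset.range (L a).length,
      ∑ j ∈ Finset.range ((L a).getD i []).length,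
        ((((L a).getD i []).getD j 0 : ℤ) : K) * f a e ^ i * g a e ^ j :=
  Tm.fsum (by fun_prop) (Tm.fsum (by fun_prop) (((Tm.int (by fun_prop)).mul
    ((hf.comp (by fun_prop)).pow (by fun_prop))).mul ((hg.comp (by fun_prop)).pow (by fun_prop))))

theorem Ex.zer {L : α → List (List ℤ)} {f g : α → (σ → K) → K} (hL : PR L) (hf : Tm f)
    (hg : Tm g) : Ex fun a e => (f a e, g a e) ∈ Zer K (L a) := Ex.eq (tm_zer hL hf hg) Tm.zero

theorem Al.zer {L : α → List (List ℤ)} {f g : α → (σ → K) → K} (hL : PR L) (hf : Tm f)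
    (hg : Tm g) : Al fun a e => (f a e, g a e) ∈ Zer K (L a) := Al.eq (tm_zer hL hf hg) Tm.zero

theorem Ex.exn {P : α → K → (ℕ → K) → Prop} (hP : Ex fun a e => P a (e 0) fun i => e (i + 1)) :
    Ex fun a e => ∃ z, P a z e :=
  Ex.ex (hP.subst (F := fun _ v (e : ℕ ⊕ Unit → K) => e (v.casesOn (Sum.inr ()) Sum.inl)) PR.id
    (Tm.var (Primrec.nat_casesOn Primrec.snd (Primrec.const _)
      (Primrec.sumInl.comp Primrec.snd).to₂)))

theorem Al.alln {P : α → K → (ℕ → K) → Prop} (hP : Al fun a e => P a (e 0) fun i => e (i + 1)) :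
    Al fun a e => ∀ z, P a z e :=
  (Ex.exn (P := fun a z e => ¬ P a z e) hP).of_iff fun _ _ => not_forall.symm

theorem Al.ren {P : α → Prop} (h : Al fun a (_ : ℕ → K) => P a) : RE P :=
  h.re'.of_iff fun _ => ⟨fun h => h 0, fun h _ => h⟩

theorem re_irn {X : α → K → K → Prop} (h : Ex fun a (e : ℕ → K) => X a (e 0) (e 1)) :
    RE fun a => Irr (X a) :=
  re_irr (h.subst (F := fun _ v (e : Bool → K) => e (v = 0)) PR.id
    (Tm.var (Primrec.eq.comp Primrec.snd (Primrec.const 0)).decide))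

theorem Tm.vc (n : ℕ) : Tm fun (_ : α) (e : ℕ → K) => e n := Tm.var (PR.const n)

variable {d : α → ℤ} {L : α → List (List ℤ)} {h : α → List ℤ} {g g' : α → ℤ × List ℤ}
  {F F' : α → Tri} {N : α → ℕ} {B : α → ℤ × Tri} {R R0 : α → List (ℤ × ℤ × ℤ)}

theorem re_str (hd : PR d) (hL : PR L) (hh : PR h) (hg : PR g) (hg' : PR g') (hF : PR F)
    (hF' : PR F') : RE fun a => Str (d a) (L a) (h a) (g a) (g' a) (F a) (F' a) := by
  refine RE.of_iff (RE.and (PP.re ?_) (RE.and (PP.re ?_) (RE.and (PP.re ?_) (RE.and (PP.re ?_)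
    (RE.and (Al.ren ?_) (RE.and (Al.ren ?_) (RE.and (Al.ren ?_) (RE.and (Al.ren ?_) (RE.and (Al.ren ?_)
    (Al.ren ?_)))))))))) fun _ => ⟨fun ⟨a, b, c, d, e, f, g, h, i, j⟩ =>
      ⟨a, b, c, d, e, f, g, h, i, j⟩, fun ⟨a, b, c, d, e, f, g, h, i, j⟩ =>
      ⟨a, b, c, d, e, f, g, h, i, j⟩⟩
  iterate 4 fun_prop
  all_goals
    simp only [Gd, Gr, Mp, OnE]
    repeat
      with_reducible refine Al.alln ?_
      beta_reduce
    apply_rules (maxDepth := 1000) (transparency := .reducible) [Al.zer, Ex.zer, Al.not, Al.ne, Al.imp, Al.and,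
      Al.eq, Ex.and, Ex.not, Ex.eq, Ex.mat, Tm.add, Tm.mul, Tm.sub, Tm.pow, Tm.vc, Tm.int,
      Tm.zero, Tm.one, Tm.num, Tm.hor, Tm.ev3] <;> fun_prop

theorem re_cov (hd : PR d) (hL : PR L) (hh : PR h) (hg : PR g) (hg' : PR g') (hF : PR F)
    (hN : PR N) (hB : PR B) (hR : PR R) (hR0 : PR R0) :
    RE fun a => Cov (d a) (L a) (h a) (g a) (g' a) (F a) (N a) (B a) (R a) (R0 a) := by
  refine RE.of_iff (RE.and (PP.re ?_) (RE.and (PP.re ?_) (RE.and (PP.re ?_)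
    (RE.and (PP.re (PP.all hR ?_)) (RE.and (PP.re (PP.all hR0 ?_))
    (RE.and (Al.ren ?_) (RE.and (Al.ren ?_) (RE.and (RE.all hR (Al.ren ?_)) (RE.and
    (RE.all hR (Al.ren ?_)) (RE.and (RE.all hR (re_irn ?_)) (RE.and (RE.all (pr_length hR).range
    (RE.all (by fun_prop) (RE.imp (by fun_prop) (re_irn ?_)))) (re_irn (Ex.and ?_
    (Ex.all hR0 ?_)))))))))))))) fun _ => ⟨fun ⟨a, b, c, d, e, f, g, h, i, j, k, l⟩ =>
      ⟨a, b, c, d, e, f, g, h, i, j, k, l⟩, fun ⟨a, b, c, d, e, f, g, h, i, j, k, l⟩ =>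
      ⟨a, b, c, d, e, f, g, h, i, j, k, l⟩⟩
  iterate 5 fun_prop
  all_goals
    try simp only [Gd, Gr, Mp, OnE, Rq, Bp, Val]
    repeat
      with_reducible first | refine Ex.exn ?_ | refine Al.alln ?_
      beta_reduce
    apply_rules (maxDepth := 1000) (transparency := .reducible) [Ex.zer, Al.not, Al.imp, Al.and, Al.or, Al.eq,
      Ex.and, Ex.not, Ex.eq, Ex.mat, Tm.add, Tm.mul, Tm.sub, Tm.pow, Tm.vc, Tm.int,
      Tm.zero, Tm.one, Tm.num, Tm.hor, Tm.ev3] <;> fun_prop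

theorem re_yes {Q : α → ℤ × ℤ × ℤ} (hL : PR L) (hg : PR g) (hQ : PR Q) :
    RE fun a => ∀ x y, Rq (Q a) x y → Gd (L a) (g a) x y := by
  refine Al.ren ?_
  simp only [Gd, Gr, Rq]
  apply_rules (maxDepth := 1000) (transparency := .reducible) [Al.zer, Al.alln, Al.not, Al.imp, Al.and, Ex.and,
    Ex.eq, Tm.mul, Tm.vc, Tm.int, Tm.zero, Tm.hor] <;> fun_prop

end Pool.Agent.Lib.MP_d6ddbd_nt.TZ
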