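import Pool.Agent.Lib.MP_d6ddbd_nt.TZ.Bas

/-! The certificates for torsors are sound. -/

set_option autoImplicit false

open WeierstrassCurve WeierstrassCurve.Affine
open Pool.Agent.Lib.MP_02f36d_nt
open Pool.Agent.Lib.MP_02f36d_nt.X11 (Wd Pts)
open scoped Classical

noncomputable section

namespace Pool.Agent.Lib.MP_d6ddbd_nt.TZ

/-- The point of the twist that belongs to a point of the curve. -/
def Psi (d : ℤ) (F : Tri) (s x y : K) : EK d :=
  Classical.epsilon fun P => P ≠ 0 ∧ Mp F s x y (xc P) (yc P)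

/-- Rational points off the grid. -/
def GR (L : List (List ℤ)) (g : ℤ × List ℤ) : Set (K × K) :=
  {p | Rt p.1 ∧ Rt p.2 ∧ Gd L g p.1 p.2}

theorem mp_ex {F : Tri} {s x y : K} (h : ev3 F.2.2 x y s ≠ 0) : ∃ u v, Mp F s x y u v :=
  ⟨_, _, div_mul_cancel₀ _ h, div_mul_cancel₀ _ h⟩

theorem gr_iff {L : List (List ℤ)} {g : ℤ × List ℤ} (h : g.1 ≠ 0) :
    (Zer ℚ L).Finite ↔ (GR L g).Finite := by
  constructor
  · intro k
    refine (k.image fun p => ((p.1 : K), (p.2 : K))).subset ?_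
    rintro ⟨_, _⟩ ⟨⟨a, rfl⟩, ⟨b, rfl⟩, e⟩
    exact ⟨(a, b), (zer_map (Rat.castHom K)).1 e.1, rfl⟩
  · intro k
    have i : Function.Injective fun p : ℚ × ℚ => ((p.1 : K), (p.2 : K)) := fun p q e =>
      Prod.ext (Rat.cast_injective (congrArg Prod.fst e)) (Rat.cast_injective (congrArg Prod.snd e))
    refine ((k.union (gr_fin h)).preimage i.injOn).subset fun p hp => ?_
    by_cases c : Gr g (p.1 : K) (p.2 : K)
    · exact Or.inr c
    · exact Or.inl ⟨⟨_, rfl⟩, ⟨_, rfl⟩, (zer_map (Rat.castHom K)).2 hp, c⟩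

theorem bp_ex {B : ℤ × Tri} (h : B.1 ≠ 0) (s : K) : ∃ z u v, Bp B s z u v :=
  have h' : (B.1 : K) ≠ 0 := Int.cast_ne_zero.2 h
  ⟨_, _, _, mul_div_cancel₀ _ h', mul_div_cancel₀ _ h', mul_div_cancel₀ _ h'⟩

namespace Str

variable {d : ℤ} {L : List (List ℤ)} {h : List ℤ} {g g' : ℤ × List ℤ} {F F' : Tri}
  (S : Str d L h g g' F F') {s s' x y x' y' : K}

include S

theorem spec (hs : hor h s = 0) (hp : Gd L g x y) :
    Psi d F s x y ≠ 0 ∧ Mp F s x y (xc (Psi d F s x y)) (yc (Psi d F s x y)) := by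
  refine Classical.epsilon_spec (p := fun P : EK d => P ≠ 0 ∧ Mp F s x y (xc P) (yc P)) ?_
  obtain ⟨u, v, m⟩ := mp_ex (S.den s x y hs hp)
  obtain ⟨P, a, rfl, rfl⟩ := ex_pt S.d0 (S.onE s x y u v hs hp m)
  exact ⟨P, a, m⟩

theorem cod_psi (hs : hor h s = 0) (hp : Gd L g x y) {u v : K} (m : Mp F s x y u v) :
    cod (Psi d F s x y) = (1, u, v) :=
  have a := S.spec hs hp
  cod_one.2 ⟨a.1, mul_right_cancel₀ (S.den s x y hs hp) (a.2.1.trans m.1.symm),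
    mul_right_cancel₀ (S.den s x y hs hp) (a.2.2.trans m.2.symm)⟩

theorem psi_gal (σ : GK) (hs : hor h s = 0) (hp : Gd L g x y) :
    gal σ (Psi d F s x y) = Psi d F (σ s) (σ x) (σ y) := by
  have a := S.spec hs hp
  refine cod_inj ((cod_gal σ (cod_ne a.1)).trans ?_)
  rw [map_one, S.cod_psi ((hor_gal σ).2 hs) ((gd_gal σ).2 hp) ((mp_gal σ).2 a.2)]

theorem psi_inj (hs : hor h s = 0) (hp : Gd L g x y) (hq : Gd L g x' y')
    (e : Psi d F s x y = Psi d F s x' y') : x = x' ∧ y = y' :=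
  S.inj s x y x' y' _ _ hs hp (S.spec hs hp).2 hq (e ▸ (S.spec hs hq).2)

theorem psi_sur (hs : hor h s = 0) {R : EK d} (a : ¬ (R = 0 ∨ Gr g' (xc R) (yc R))) :
    ∃ x y, Gd L g x y ∧ Psi d F s x y = R := by
  rw [not_or] at a
  obtain ⟨x, y, m⟩ := mp_ex (S.den' s _ _ hs (onE_pt a.1) a.2)
  obtain ⟨b, c⟩ := S.sur s _ _ x y hs (onE_pt a.1) a.2 m
  exact ⟨x, y, b, cod_inj ((S.cod_psi hs b c).trans (cod_ne a.1).symm)⟩

theorem psi_con (hs : hor h s = 0) (hs' : hor h s' = 0) (hp : Gd L g x y) (hq : Gd L g x' y') :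
    Psi d F s x y + Psi d F s' x' y' = Psi d F s' x y + Psi d F s x' y' := by
  have a1 := S.spec hs hp
  have a2 := S.spec hs' hp
  have a3 := S.spec hs hq
  have a4 := S.spec hs' hq
  have k : ∀ {P Q : EK d}, P ≠ 0 → Q ≠ 0 → MaT d 1 (1, xc P, yc P) (1, xc Q, yc Q)
      ((cod (P + Q)).1, (cod (P + Q)).2.1, (cod (P + Q)).2.2) := fun a b => by
    rw [← cod_ne a, ← cod_ne b, mat_iff S.d0, one_nsmul]
  obtain ⟨e1, e2, e3⟩ := S.con s s' x y x' y' _ _ _ _ _ _ _ _ _ _ _ _ _ _ hs hs' hp hq a1.2 a2.2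
    a3.2 a4.2 (k a1.1 a4.1) (k a2.1 a3.1)
  exact cod_inj (Prod.ext e1 (Prod.ext e2 e3))

theorem trans_rt (hs : hor h s = 0) (hp : (x, y) ∈ GR L g) (hq : Gd L g x' y') {P : EK d}
    (hP : P ∈ Fix d) (e : Psi d F s x' y' = Psi d F s x y + P) : (x', y') ∈ GR L g := by
  have k : ∀ σ : GK, σ x' = x' ∧ σ y' = y' := fun σ => by
    have hσ := (hor_gal σ).2 hs
    have a := congrArg (gal σ) e
    rw [map_add, hP σ, S.psi_gal σ hs hq, S.psi_gal σ hs hp.2.2, rt_iff.1 hp.1 σ,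
      rt_iff.1 hp.2.1 σ] at a
    have b := S.psi_con hs hσ hp.2.2 hq
    refine S.psi_inj hσ ((gd_gal σ).2 hq) hq ?_
    rw [e, add_left_comm] at b
    exact a.trans (add_left_cancel b).symm
  exact ⟨rt_iff.2 fun σ => (k σ).1, rt_iff.2 fun σ => (k σ).2, hq⟩

theorem sub_fix (hs : hor h s = 0) (hp : (x, y) ∈ GR L g) (hq : (x', y') ∈ GR L g) :
    Psi d F s x' y' - Psi d F s x y ∈ Fix d := fun σ => by
  rw [map_sub, S.psi_gal σ hs hq.2.2, S.psi_gal σ hs hp.2.2, rt_iff.1 hp.1 σ, rt_iff.1 hp.2.1 σ,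
    rt_iff.1 hq.1 σ, rt_iff.1 hq.2.1 σ, sub_eq_sub_iff_add_eq_add, add_comm,
    S.psi_con hs ((hor_gal σ).2 hs) hp.2.2 hq.2.2, add_comm]

theorem yes (hI : Infinite (Fix d)) (hp : (x, y) ∈ GR L g) : (Zer ℚ L).Infinite := fun k => by
  obtain ⟨s, hs⟩ := hor_root S.h0
  have a := (((gr_iff S.g0).1 k).image fun p => Psi d F s p.1 p.2).union (gr_pt (d := d) S.g1)
  refine Set.infinite_coe_iff.1 hI ((a.preimage
    (add_right_injective (Psi d F s x y)).injOn).subset fun P hP => ?_)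
  by_cases c : Psi d F s x y + P = 0 ∨ Gr g' (xc (Psi d F s x y + P)) (yc (Psi d F s x y + P))
  · exact Or.inr c
  · obtain ⟨x', y', b, e⟩ := S.psi_sur hs c
    exact Or.inl ⟨(x', y'), S.trans_rt hs hp b hP e, e⟩

theorem fin (hF : Finite (Fix d)) : (Zer ℚ L).Finite := by
  rw [gr_iff S.g0]
  obtain ⟨s, hs⟩ := hor_root S.h0
  rcases (GR L g).eq_empty_or_nonempty with e | ⟨p, hp⟩
  · rw [e]
    exact Set.finite_empty
  · refine Set.Finite.of_injOn (f := fun q => Psi d F s q.1 q.2 - Psi d F s p.1 p.2)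
      (t := Fix d) (fun q hq => S.sub_fix hs hp hq) (fun q hq q' hq' e => ?_)
      (Set.toFinite _)
    have := S.psi_inj hs hq.2.2 hq'.2.2 (sub_left_injective e)
    exact Prod.ext this.1 this.2

theorem no {N : ℕ} {B : ℤ × Tri} {R R0 : List (ℤ × ℤ × ℤ)} (hM : Mw d)
    (C : Cov d L h g g' F N B R R0) (hp : (x, y) ∈ GR L g) : False := by
  obtain ⟨s, hs⟩ := hor_root S.h0
  obtain ⟨z, u, v, hB⟩ := bp_ex C.B0 s
  obtain ⟨b, hb⟩ := (val_iff S.d0).1 (C.val s z u v hs hB)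
  have a1 := S.spec hs hp.2.2
  have k : ∀ {P Q : EK d} {z u v : K}, P ≠ 0 → cod Q = (z, u, v) → MaT d N (1, xc P, yc P) (z, u, v)
      ((cod (N • P + Q)).1, (cod (N • P + Q)).2.1, (cod (N • P + Q)).2.2) := fun a b => by
    rw [← cod_ne a, ← b, mat_iff S.d0]
  have hπ : N • Psi d F s x y + b ∈ Fix d := fun σ => by
    have hσ := (hor_gal σ).2 hs
    have a2 := S.spec hσ hp.2.2
    obtain ⟨e1, e2, e3⟩ := C.ind s (σ s) x y _ _ _ _ _ _ _ _ _ _ _ _ _ _ _ _ hs hσ hp.2.2 a1.2 a2.2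
      hB ((bp_gal σ).2 hB) (k a1.1 hb) (k a2.1 (cod_gal σ hb))
    rw [map_add, map_nsmul, S.psi_gal σ hs hp.2.2, rt_iff.1 hp.1 σ, rt_iff.1 hp.2.1 σ]
    exact (cod_inj (Prod.ext e1 (Prod.ext e2 e3))).symm
  have hR : ∀ i : Fin R.length, R.getD i 0 ∈ R := fun i => by
    rw [List.getD_eq_getElem _ _ i.2]
    exact List.getElem_mem _
  have hQ : ∀ i : Fin R.length, ∃ Q : Fix d, Q.1 ≠ 0 ∧ Rq (R.getD i 0) (xc Q.1) (yc Q.1) :=
    fun i => by
      obtain ⟨p, q, e⟩ := rq_ex (C.R1 _ (hR i))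
      obtain ⟨P, a, rfl, rfl⟩ := ex_pt S.d0 (C.onE _ (hR i) p q e)
      exact ⟨⟨P, mem_fix.2 (rq_rt (C.R1 _ (hR i)) e)⟩, a, e⟩
  choose Q Q0 Q1 using hQ
  set H := (nsmulAddMonoidHom (α := Fix d) N).range with hH
  have hi : Function.Injective fun i => (QuotientAddGroup.mk (Q i) : Fix d ⧸ H) := fun i j e => by
    by_contra c
    obtain ⟨P, hP⟩ := QuotientAddGroup.eq.1 e.symm
    have e1 : N • P.1 + (Q j).1 = (Q i).1 := by
      have : N • P.1 = -(Q j).1 + (Q i).1 := congrArg Subtype.val hP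
      rw [this, neg_add_cancel_comm]
    refine (C.dis i (List.mem_range.2 i.2) j (List.mem_range.2 j.2) fun e => c (Fin.ext e)).2
      (xc P.1) (yc P.1) ⟨(cod P.1).1, _, _, _, _, Q1 i, Q1 j, ?_⟩ (mem_fix.1 P.2)
    rw [← cod_ne (Q0 i), ← cod_ne (Q0 j)]
    exact (mat_iff S.d0).2 (congrArg cod e1)
  have hT : ∀ P : {P : Fix d // N • P = 0}, ∃ o : Option (Fin R0.length),
      (o = none → P.1.1 = 0) ∧ ∀ i, o = some i → P.1.1 ≠ 0 ∧ Rq R0[i] (xc P.1.1) (yc P.1.1) :=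
    fun P => by
      by_cases c : P.1.1 = 0
      · exact ⟨none, fun _ => c, fun i e => nomatch e⟩
      · have m : MaT d N (1, xc P.1.1, yc P.1.1) (0, 0, 0) (0, 0, 0) := by
          rw [← cod_ne c, ← cod_zero (d := d), mat_iff S.d0, add_zero]
          exact congrArg cod (congrArg Subtype.val P.2)
        obtain ⟨q, hq, e⟩ : ∃ q ∈ R0, Rq q (xc P.1.1) (yc P.1.1) := by
          by_contra k
          exact C.tor.2 _ _ ⟨m, fun q hq e => k ⟨q, hq, e⟩⟩ (mem_fix.1 P.1.2)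
        obtain ⟨i, rfl⟩ := List.mem_iff_get.1 hq
        exact ⟨some i, fun e => (nomatch e), fun j e' => ⟨c, Option.some.inj e' ▸ e⟩⟩
  choose o o0 o1 using hT
  have ho : Function.Injective o := fun P P' e => by
    refine Subtype.ext (Subtype.ext ?_)
    rcases c : o P with _ | i
    · rw [o0 P c, o0 P' (e ▸ c)]
    · have a := o1 P i c
      have a' := o1 P' i (e ▸ c)
      have := rq_inj (C.R2 _ (List.getElem_mem _)) a.2 a'.2
      exact pt_ext a.1 a'.1 this.1 this.2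
  have f1 : Finite {P : Fix d // N • P = 0} := Finite.of_injective o ho
  have n1 : Nonempty {P : Fix d // N • P = 0} := ⟨⟨0, smul_zero _⟩⟩
  have c1 := Nat.card_le_card_of_injective o ho
  rw [Nat.card_eq_fintype_card (α := Option _), Fintype.card_option, Fintype.card_fin] at c1
  have c2 : Nat.card (Fix d ⧸ H) = N * Nat.card {P : Fix d // N • P = 0} := hM.2 N C.N0
  have f2 : Finite (Fix d ⧸ H) :=
    Nat.finite_of_card_ne_zero (c2 ▸ mul_ne_zero C.N0 Nat.card_pos.ne')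
  obtain ⟨i, e⟩ := (hi.bijective_of_nat_card_le (by
    rw [c2, Nat.card_fin, C.len]
    exact Nat.mul_le_mul_left _ c1)).2 (QuotientAddGroup.mk ⟨_, hπ⟩)
  obtain ⟨P, hP⟩ := QuotientAddGroup.eq.1 e
  have e1 : N • (Psi d F s x y + -P.1) + b = (Q i).1 := by
    have : N • P.1 = -(Q i).1 + (N • Psi d F s x y + b) := congrArg Subtype.val hP
    rw [nsmul_add, neg_nsmul, this]
    abel
  have m : MaT d N (cod (Psi d F s x y + -P.1)) (z, u, v) (1, xc (Q i).1, yc (Q i).1) := by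
    rw [← hb, ← cod_ne (Q0 i), mat_iff S.d0, e1]
  obtain ⟨t1, t2⟩ := C.aff _ (hR i) s z u v _ _ _ _ _ hs hB (Q1 i) m
  have t0 : Psi d F s x y + -P.1 ≠ 0 := fun e => by
    rw [if_pos e] at t1
    exact zero_ne_one t1
  obtain ⟨x', y', r, e2⟩ := S.psi_sur hs (not_or.2 ⟨t0, t2⟩)
  have r' := S.trans_rt hs hp r (neg_mem P.2) e2
  rw [cod_ne t0, ← e2] at m
  exact (C.irr _ (hR i)).2 x' y' ⟨s, z, u, v, _, _, _, _, hs, hB, Q1 i, r, (S.spec hs r).2, m⟩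
    ⟨r'.1, r'.2.1⟩

end Str

theorem snd : sSnd := by
  intro d L h g g' F F' S
  refine ⟨fun hI x y a b c => S.yes hI ⟨a, b, c⟩, S.fin, fun N B R R0 hM C => ?_, fun k => ?_⟩
  · exact (gr_iff S.g0).2 (Set.finite_empty.subset fun p hp => S.no hM C (x := p.1) (y := p.2) hp)
  · obtain ⟨p, a, b, c⟩ := Set.Infinite.nonempty (mt (gr_iff S.g0).2 k)
    obtain ⟨Q, e, r⟩ := ex_rq a b
    refine ⟨Q, e, fun x y r' => ?_⟩
    obtain ⟨rfl, rfl⟩ := rq_inj e r' r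
    exact c

end Pool.Agent.Lib.MP_d6ddbd_nt.TZ
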