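import Pool.Agent.Lib.MP_d6ddbd_nt.TZ.Defs
import Pool.Agent.Lib.MP_d6ddbd_nt.TZ.Pol
import Pool.Agent.Lib.MP_02f36d_nt.X11.Brg
import Pool.Agent.Lib.MP_d6ddbd_nt.KI.Pt

/-! Certificates for torsors of the twists: definitions and the statements of the blocks. -/

set_option autoImplicit false

open WeierstrassCurve WeierstrassCurve.Affine
open Pool.Agent.Lib.MP_02f36d_nt (xc yc)
open Pool.Agent.Lib.MP_02f36d_nt.X11 (Wd Pts)
open scoped Classical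

noncomputable section

namespace Pool.Agent.Lib.MP_d6ddbd_nt.TZ

/-- The algebraic points of the twist. -/
abbrev EK (d : ℤ) : Type := Pts (Wd d) K

/-- The Galois group. -/
abbrev GK : Type := K ≃ₐ[ℚ] K

/-- The Galois action on points. -/
abbrev gal {d : ℤ} (σ : GK) : EK d →+ EK d := Point.map σ.toAlgHom

/-- The rational points. -/
def Fix (d : ℤ) : AddSubgroup (EK d) where
  carrier := {P | ∀ σ : GK, gal σ P = P}
  add_mem' := fun {P Q} hP hQ σ => by rw [map_add, hP σ, hQ σ]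
  zero_mem' := fun σ => map_zero _
  neg_mem' := fun {P} hP σ => by rw [map_neg, hP σ]

/-- The group of rational points has rank one. -/
def Mw (d : ℤ) : Prop := Infinite (Fix d) ∧ ∀ N : ℕ, N ≠ 0 →
  (nsmulAddMonoidHom (α := Fix d) N).range.index = N * Nat.card {P : Fix d // N • P = 0}

/-- The equation of the twist. -/
def OnE (d : ℤ) (u v : K) : Prop :=
  v ^ 2 = u ^ 3 - 4 * (d : K) * u ^ 2 - 160 * (d : K) ^ 2 * u - 1264 * (d : K) ^ 3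

/-- The code of a point. -/
def cod {d : ℤ} (P : EK d) : K × K × K := (if P = 0 then 0 else 1, xc P, yc P)

/-- Valid codes. -/
def Val (d : ℤ) (z u v : K) : Prop := (z = 0 ∧ u = 0 ∧ v = 0) ∨ (z = 1 ∧ OnE d u v)

/-- The relation `N • a + b = c` on codes. -/
def MaT (d : ℤ) (N : ℕ) (a b c : K × K × K) : Prop :=
  d ≠ 0 ∧ ∃ P Q : EK d, cod P = a ∧ cod Q = b ∧ cod (N • P + Q) = c

/-- A finite grid of exceptions. -/
def Gr (g : ℤ × List ℤ) (x y : K) : Prop := hor g.2 (g.1 * x) = 0 ∧ hor g.2 (g.1 * y) = 0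

/-- Points of the curve off the grid. -/
def Gd (L : List (List ℤ)) (g : ℤ × List ℤ) (x y : K) : Prop := (x, y) ∈ Zer K L ∧ ¬ Gr g x y

/-- Triples of polynomials. -/
abbrev Tri : Type := Pol ℕ × Pol ℕ × Pol ℕ

/-- The rational map `F` with the parameter `s` sends `(x, y)` to `(u, v)`. -/
def Mp (F : Tri) (s x y u v : K) : Prop :=
  u * ev3 F.2.2 x y s = ev3 F.1 x y s ∧ v * ev3 F.2.2 x y s = ev3 F.2.1 x y s

/-- The point `(x, y)` is `(Q.1 / Q.2.2, Q.2.1 / Q.2.2)`. -/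
def Rq (Q : ℤ × ℤ × ℤ) (x y : K) : Prop := Q.2.2 * x = Q.1 ∧ Q.2.2 * y = Q.2.1

/-- The code of the point `B` with the parameter `s`. -/
def Bp (B : ℤ × Tri) (s z u v : K) : Prop :=
  B.1 * z = ev3 B.2.1 0 0 s ∧ B.1 * u = ev3 B.2.2.1 0 0 s ∧ B.1 * v = ev3 B.2.2.2 0 0 s

section

variable (d : ℤ) (L : List (List ℤ)) (h : List ℤ) (g g' : ℤ × List ℤ) (F F' : Tri)

/-- The certificate for the structure of a torsor. -/
structure Str : Prop where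
  d0 : d ≠ 0
  h0 : h ≠ []
  g0 : g.1 ≠ 0
  g1 : g'.1 ≠ 0
  den : ∀ s x y : K, hor h s = 0 → Gd L g x y → ev3 F.2.2 x y s ≠ 0
  onE : ∀ s x y u v : K, hor h s = 0 → Gd L g x y → Mp F s x y u v → OnE d u v
  inj : ∀ s x y x' y' u v : K, hor h s = 0 → Gd L g x y → Mp F s x y u v → Gd L g x' y' →
    Mp F s x' y' u v → x = x' ∧ y = y'
  den' : ∀ s u v : K, hor h s = 0 → OnE d u v → ¬ Gr g' u v → ev3 F'.2.2 u v s ≠ 0
  sur : ∀ s u v x y : K, hor h s = 0 → OnE d u v → ¬ Gr g' u v → Mp F' s u v x y →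
    Gd L g x y ∧ Mp F s x y u v
  con : ∀ s s' x y x' y' u₁ v₁ u₂ v₂ u₃ v₃ u₄ v₄ a b c a' b' c' : K, hor h s = 0 → hor h s' = 0 →
    Gd L g x y → Gd L g x' y' → Mp F s x y u₁ v₁ → Mp F s' x y u₂ v₂ → Mp F s x' y' u₃ v₃ →
    Mp F s' x' y' u₄ v₄ → MaT d 1 (1, u₁, v₁) (1, u₄, v₄) (a, b, c) →
    MaT d 1 (1, u₂, v₂) (1, u₃, v₃) (a', b', c') → a = a' ∧ b = b' ∧ c = c'

/-- The certificate that there is no rational point when the rank is one. -/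
structure Cov (N : ℕ) (B : ℤ × Tri) (R R0 : List (ℤ × ℤ × ℤ)) : Prop where
  N0 : N ≠ 0
  B0 : B.1 ≠ 0
  len : R.length = N * (R0.length + 1)
  R1 : ∀ Q ∈ R, Q.2.2 ≠ 0
  R2 : ∀ Q ∈ R0, Q.2.2 ≠ 0
  val : ∀ s z u v : K, hor h s = 0 → Bp B s z u v → Val d z u v
  ind : ∀ s s' x y u₁ v₁ u₂ v₂ z u v z' u' v' a b c a' b' c' : K, hor h s = 0 → hor h s' = 0 →
    Gd L g x y → Mp F s x y u₁ v₁ → Mp F s' x y u₂ v₂ → Bp B s z u v → Bp B s' z' u' v' →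
    MaT d N (1, u₁, v₁) (z, u, v) (a, b, c) → MaT d N (1, u₂, v₂) (z', u', v') (a', b', c') →
    a = a' ∧ b = b' ∧ c = c'
  onE : ∀ Q ∈ R, ∀ u v : K, Rq Q u v → OnE d u v
  aff : ∀ Q ∈ R, ∀ s z u v a b c p q : K, hor h s = 0 → Bp B s z u v → Rq Q p q →
    MaT d N (a, b, c) (z, u, v) (1, p, q) → a = 1 ∧ ¬ Gr g' b c
  irr : ∀ Q ∈ R, Irr fun x y => ∃ s z u v b c p q : K, hor h s = 0 ∧ Bp B s z u v ∧ Rq Q p q ∧
    Gd L g x y ∧ Mp F s x y b c ∧ MaT d N (1, b, c) (z, u, v) (1, p, q)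
  dis : ∀ i ∈ List.range R.length, ∀ j ∈ List.range R.length, i ≠ j → Irr fun x y =>
    ∃ z p q p' q' : K, Rq (R.getD i 0) p q ∧ Rq (R.getD j 0) p' q' ∧
      MaT d N (z, x, y) (1, p', q') (1, p, q)
  tor : Irr fun x y => MaT d N (1, x, y) (0, 0, 0) (0, 0, 0) ∧ ∀ Q ∈ R0, ¬ Rq Q x y

end

/-- The roots are conjugate. -/
def Orb (h : List ℤ) : Prop := ∀ s s' : K, hor h s = 0 → hor h s' = 0 → ∃ σ : GK, σ s = s'

/-- Block `MW`. -/
def sMW : Prop := ∀ d : ℤ, d ≠ 0 → ((K11.Tw d).Finite → Finite (Fix d)) ∧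
  ((K11.Tw d).Infinite → (∀ P ∈ KI.Pts.Inv d, ∀ Q ∈ KI.Pts.Inv d, (∃ R ∈ KI.Pts.Inv d, P = 2 • R) ∨
    (∃ R ∈ KI.Pts.Inv d, Q = 2 • R) ∨ ∃ R ∈ KI.Pts.Inv d, P - Q = 2 • R) → Mw d)

/-- Block `Snd`. -/
def sSnd : Prop := ∀ d L h g g' F F', Str d L h g g' F F' →
  (Infinite (Fix d) → ∀ x y, Rt x → Rt y → Gd L g x y → (Zer ℚ L).Infinite) ∧
  (Finite (Fix d) → (Zer ℚ L).Finite) ∧
  (∀ N B R R0, Mw d → Cov d L h g g' F N B R R0 → (Zer ℚ L).Finite) ∧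
  ((Zer ℚ L).Infinite → ∃ Q : ℤ × ℤ × ℤ, Q.2.2 ≠ 0 ∧ ∀ x y, Rq Q x y → Gd L g x y)

/-- Block `CmA`. -/
def sCmA : Prop := ∀ d L, d ≠ 0 → Tors L (Wd d) → ∃ h g g' F F', Str d L h g g' F F' ∧ Orb h

/-- Block `CmB`. -/
def sCmB : Prop := ∀ d L h g g' F F', Str d L h g g' F F' → Orb h → Mw d → (Zer ℚ L).Finite →
  ∃ N B R R0, Cov d L h g g' F N B R R0

end Pool.Agent.Lib.MP_d6ddbd_nt.TZ
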