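import Pool.Agent.Lib.MP_d6ddbd_nt.TZ.Bas

/-! Closure properties of computable families of polynomials and of constructible sets. -/

set_option autoImplicit false

open Pool.Agent.Sand.Check

noncomputable section

namespace Pool.Agent.Lib.MP_d6ddbd_nt.TZ

variable {α β γ σ τ : Type} [Primcodable α] [Primcodable β] [Primcodable γ] [Primcodable σ]
  [Primcodable τ]

@[fun_prop] theorem pr_cons {f : α → β} {g : α → List β} (hf : PR f) (hg : PR g) :
    PR fun a => f a :: g a := Primrec.list_cons.comp hf hg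

@[fun_prop] theorem pr_append {f g : α → List β} (hf : PR f) (hg : PR g) :
    PR fun a => f a ++ g a := Primrec.list_append.comp hf hg

@[fun_prop] theorem pr_length {f : α → List β} (hf : PR f) : PR fun a => (f a).length :=
  Primrec.list_length.comp hf

@[fun_prop] theorem pr_inl {f : α → β} (hf : PR f) : PR fun a => (Sum.inl (f a) : β ⊕ γ) :=
  Primrec.sumInl.comp hf

@[fun_prop] theorem pr_inr {f : α → β} (hf : PR f) : PR fun a => (Sum.inr (f a) : γ ⊕ β) :=
  Primrec.sumInr.comp hf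

@[fun_prop] theorem pr_some {f : α → β} (hf : PR f) : PR fun a => some (f a) :=
  Primrec.option_some.comp hf

@[fun_prop] theorem pr_natAbs {f : α → ℤ} (hf : PR f) : PR fun a => (f a).natAbs :=
  prim_natAbs.comp hf

theorem pr_flatMap {f : α → List β} {g : α → β → List γ} (hf : PR f)
    (hg : PR fun w : α × β => g w.1 w.2) : PR fun a => (f a).flatMap (g a) :=
  Primrec.list_flatMap hf hg

theorem pr_foldr {f : α → List β} {g : α → γ} {h : α → β → γ → γ} (hf : PR f) (hg : PR g)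
    (hh : PR fun w : α × β × γ => h w.1 w.2.1 w.2.2) : PR fun a => (f a).foldr (h a) (g a) :=
  Primrec.list_foldr (h := fun a w => h a w.1 w.2) hf hg hh

theorem pr_elim {f : α → σ → γ} {g : α → τ → γ} (hf : PR fun w : α × σ => f w.1 w.2)
    (hg : PR fun w : α × τ => g w.1 w.2) :
    PR fun w : α × (σ ⊕ τ) => Sum.elim (f w.1) (g w.1) w.2 :=
  (Primrec.sumCasesOn (g := fun (w : α × (σ ⊕ τ)) v => f w.1 v)
    (h := fun (w : α × (σ ⊕ τ)) v => g w.1 v) Primrec.snd
    (PR.comp (g := fun w : (α × (σ ⊕ τ)) × σ => (w.1.1, w.2)) hf (by fun_prop))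
    (PR.comp (g := fun w : (α × (σ ⊕ τ)) × τ => (w.1.1, w.2)) hg (by fun_prop))).of_eq
    fun ⟨_, v⟩ => by cases v <;> rfl

@[fun_prop] theorem pr_pmul {f g : α → Pol σ} (hf : PR f) (hg : PR g) :
    PR fun a => pmul (f a) (g a) :=
  pr_flatMap hf (PR.map (by fun_prop) (by fun_prop))

/-- Substitution. -/
def psub (φ : τ → Pol σ) (p : Pol τ) : Pol σ :=
  p.flatMap fun m => m.2.foldr (fun v s => pmul (φ v) s) [(m.1, [])]

omit [Primcodable σ] [Primcodable τ] in
theorem ev_psub {R : Type} [CommRing R] (e : σ → R) (φ : τ → Pol σ) (p : Pol τ) :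
    ev e (psub φ p) = ev (fun v => ev e (φ v)) p := by
  induction p with
  | nil => rfl
  | cons m p ih =>
    rw [psub, List.flatMap_cons, ev_append, ← psub, ih, ev_cons]
    congr 1
    induction m.2 with
    | nil => simp [ev]
    | cons v l ih => rw [List.foldr_cons, ev_pmul, ih, List.map_cons, List.prod_cons, mul_left_comm]

theorem pr_psub {φ : α → τ → Pol σ} {p : α → Pol τ} (hφ : PR fun w : α × τ => φ w.1 w.2)
    (hp : PR p) : PR fun a => psub (φ a) (p a) :=
  pr_flatMap hp (pr_foldr (by fun_prop) (by fun_prop) (pr_pmul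
    (PR.comp (g := fun w : (α × ℤ × List τ) × τ × Pol σ => (w.1.1, w.2.1)) hφ (by fun_prop))
    (by fun_prop)))

/-- Lists of terms. -/
def Tl (l : α → (σ → K) → List K) : Prop := Tm fun (w : α × ℕ) e => (l w.1 e).getD w.2 0

namespace Tm

variable {f g k : α → (σ → K) → K}

theorem of_eq (h : Tm f) (e : ∀ a x, f a x = g a x) : Tm g :=
  (funext₂ e : f = g) ▸ h

theorem var {r : α → σ} (hr : PR r) : Tm fun a e => e (r a) :=
  ⟨fun a => [(1, [r a])], by fun_prop, fun _ _ => (ev_var _ _).symm⟩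

theorem int {c : α → ℤ} (hc : PR c) : Tm fun a (_ : σ → K) => (c a : K) :=
  ⟨fun a => [(c a, [])], by fun_prop, fun _ _ => (ev_const _ _).symm⟩

theorem zero : Tm fun (_ : α) (_ : σ → K) => (0 : K) := (int (PR.const 0)).of_eq (by simp)

theorem one : Tm fun (_ : α) (_ : σ → K) => (1 : K) := (int (PR.const 1)).of_eq (by simp)

theorem num (n : ℕ) [n.AtLeastTwo] : Tm fun (_ : α) (_ : σ → K) => (OfNat.ofNat n : K) :=
  (int (PR.const (n : ℤ))).of_eq fun _ _ => by
    rw [Int.cast_natCast]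
    rfl

theorem add (hf : Tm f) (hg : Tm g) : Tm fun a e => f a e + g a e :=
  let ⟨p, a, b⟩ := hf
  let ⟨q, c, d⟩ := hg
  ⟨fun a => p a ++ q a, by fun_prop, fun _ _ => by rw [ev_append, ← b, ← d]⟩

theorem mul (hf : Tm f) (hg : Tm g) : Tm fun a e => f a e * g a e :=
  let ⟨p, a, b⟩ := hf
  let ⟨q, c, d⟩ := hg
  ⟨fun a => pmul (p a) (q a), by fun_prop, fun _ _ => by rw [ev_pmul, ← b, ← d]⟩

theorem neg (hf : Tm f) : Tm fun a e => -f a e :=
  ((int (PR.const (-1))).mul hf).of_eq (by simp)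

theorem sub (hf : Tm f) (hg : Tm g) : Tm fun a e => f a e - g a e :=
  (hf.add hg.neg).of_eq fun _ _ => (sub_eq_add_neg _ _).symm

theorem comp {r : β → α} (hf : Tm f) (hr : PR r) : Tm fun b => f (r b) :=
  let ⟨p, a, b⟩ := hf
  ⟨fun b => p (r b), a.comp hr, fun _ _ => b _ _⟩

theorem ev {q : α → Pol τ} {F : α → τ → (σ → K) → K} (hq : PR q)
    (hF : Tm fun (w : α × τ) e => F w.1 w.2 e) : Tm fun a e => ev (fun v => F a v e) (q a) :=
  let ⟨p, a, b⟩ := hF
  ⟨fun a => psub (fun v => p (a, v)) (q a), pr_psub a hq, fun x e => by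
    rw [ev_psub]
    exact congrArg (TZ.ev · _) (funext fun v => b (x, v) e)⟩

theorem subst {f : α → (τ → K) → K} {F : α → τ → (σ → K) → K} (hf : Tm f)
    (hF : Tm fun (w : α × τ) e => F w.1 w.2 e) : Tm fun a e => f a fun v => F a v e :=
  let ⟨_, a, b⟩ := hf
  (ev a hF).of_eq fun _ _ => (b _ _).symm

theorem sum {l : α → List β} {F : α → β → (σ → K) → K} (hl : PR l)
    (hF : Tm fun (w : α × β) e => F w.1 w.2 e) :
    Tm fun a e => ((l a).map fun b => F a b e).sum :=
  let ⟨p, a, b⟩ := hF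
  ⟨fun a => (l a).flatMap fun v => p (a, v), pr_flatMap hl a, fun x e => by
    beta_reduce
    induction l x with
    | nil => rfl
    | cons v l ih => rw [List.map_cons, List.sum_cons, List.flatMap_cons, ev_append, ih, ← b (x, v)]⟩

theorem fsum {n : α → ℕ} {F : α → ℕ → (σ → K) → K} (hn : PR n)
    (hF : Tm fun (w : α × ℕ) e => F w.1 w.2 e) : Tm fun a e => ∑ i ∈ Finset.range (n a), F a i e :=
  (sum hn.range hF).of_eq fun _ _ => rfl

theorem pow {n : α → ℕ} (hf : Tm f) (hn : PR n) : Tm fun a e => f a e ^ n a :=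
  (ev (q := fun a => [(1, (List.range (n a)).map fun _ => ())]) (F := fun a _ e => f a e)
    (pr_cons ((PR.const 1).pair (PR.map hn.range (PR.const _))) (PR.const _))
    (hf.comp (by fun_prop))).of_eq fun _ _ => by simp [TZ.ev]

theorem nil : Tl fun (_ : α) (_ : σ → K) => [] := zero

theorem cons {l : α → (σ → K) → List K} (hf : Tm f) (hl : Tl l) :
    Tl fun a e => f a e :: l a e :=
  let ⟨p, a, b⟩ := hf
  let ⟨q, c, d⟩ := hl
  ⟨fun w => if w.2 = 0 then p w.1 else q (w.1, w.2 - 1), PR.ite (by fun_prop) (by fun_prop)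
    (c.comp (PR.id.fst.pair (Primrec.nat_sub.comp Primrec.snd (Primrec.const 1)))),
    fun ⟨x, n⟩ e => by
      rcases n with _ | n
      · exact b x e
      · exact d (x, n) e⟩

theorem ev3 {q : α → Pol ℕ} (hq : PR q) (hf : Tm f) (hg : Tm g) (hk : Tm k) :
    Tm fun a e => ev3 (q a) (f a e) (g a e) (k a e) :=
  ev hq (hf.cons (hg.cons (hk.cons nil)) :)

theorem hor {c : α → List ℤ} (hc : PR c) (hf : Tm f) : Tm fun a e => hor (c a) (f a e) :=
  let ⟨p, a, b⟩ := hf
  ⟨fun a => (c a).foldr (fun z s => (z, []) :: pmul (p a) s) [(1, [])],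
    pr_foldr hc (PR.const _) (by fun_prop), fun x e => by
      beta_reduce
      induction c x with
      | nil => simp [TZ.ev, hor_nil]
      | cons z l ih => simp [hor_cons, ev_cons, ev_pmul, ← ih, ← b]⟩

theorem elim {F : α → τ → (σ → K) → K} {G : α → γ → (σ → K) → K}
    (hF : Tm fun (w : α × τ) e => F w.1 w.2 e) (hG : Tm fun (w : α × γ) e => G w.1 w.2 e) :
    Tm fun (w : α × (τ ⊕ γ)) e => Sum.elim (fun v => F w.1 v e) (fun v => G w.1 v e) w.2 :=
  let ⟨p, a, b⟩ := hF
  let ⟨q, c, d⟩ := hG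
  ⟨fun w => Sum.elim (fun v => p (w.1, v)) (fun v => q (w.1, v)) w.2,
    pr_elim (f := fun a v => p (a, v)) (g := fun a v => q (a, v)) a c, fun ⟨x, v⟩ e => by
      rcases v with v | v
      · exact b (x, v) e
      · exact d (x, v) e⟩

end Tm

end Pool.Agent.Lib.MP_d6ddbd_nt.TZ
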